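import Pool.Agent.Work.MP_a5099b_nt.E.Fix

/-!
# Module E/Base (size M-L): the base ring

PROOF. `t : ℂ` transcendental over `ℤ` (`Liouville` numbers: `Liouville.transcendental`, or cardinality: `Algebraic.cardinalMk_lt..`). `ev : ℤ[X] → ℂ`, `X ↦ t`,
injective. In `B = k⟦X⟧` the element `J - 1728`, `J = C y + X`, is a unit (constant coefficient `y - 1728 ≠ 0`); put `c = J (J - 1728)⁻¹`,
`φ0 : ℤ[X] → B`, `X ↦ c`; `𝔮` = the kernel of `constantCoeff ∘ φ0 : ℤ[X] → k`, a prime. `A` = the set of all `ev f / ev g`, `g ∉ 𝔮` (a subring: the range of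
`Localization.AtPrime 𝔮 → ℂ` obtained by `IsLocalization.lift`, injective; `ev g ≠ 0` for `g ∉ 𝔮` since `g ≠ 0`), `φ : A → B` from `IsLocalization.lift`
(`φ0 g` is a unit if its constant coefficient is not `0`: `PowerSeries.isUnit_iff_constantCoeff`).
`X, X - 1, 2, 3, l ∉ 𝔮`: images in `k` are `y/(y - 1728) ≠ 0`, `1728/(y - 1728) ≠ 0`, `2, 3, l ≠ 0` (`CharP k q`, `q ≥ 5` prime, `l ≠ q` prime).
Last property: by `fix_field` `z ∈ Subfield.closure {t}`, so `z = ev f/ev g` is in the fraction field of `A`; `A` is integrally closed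
(localization of `ℤ[X]`, a unique factorization domain: instances `IsIntegrallyClosed ℤ[X]`, and `IsLocalization`), so `z ∈ A`.
-/

set_option autoImplicit false

namespace Pool.Agent.SS

private theorem closed_aux {L : Type} [CommRing L] [IsDomain L] [IsIntegrallyClosed L] (i : L →+* ℂ)
    (hinj : Function.Injective i) {t z : ℂ} (ht : ∃ x, i x = t) (hz : z ∈ Subfield.closure {t})
    (hint : IsIntegral i.range z) : z ∈ i.range := by
  let e : L ≃+* i.range := RingEquiv.ofBijective i.rangeRestrict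
    ⟨fun x y h => hinj (congrArg Subtype.val h), i.rangeRestrict_surjective⟩
  have he : ∀ x : L, ((e x : i.range) : ℂ) = i x := fun x => rfl
  let j : FractionRing L →+* ℂ := IsFractionRing.lift (A := L) (K := FractionRing L) hinj
  have hj : ∀ x : L, j (algebraMap L (FractionRing L) x) = i x := fun x => IsFractionRing.lift_algebraMap hinj x
  have hz' : z ∈ j.fieldRange := by
    refine (Subfield.closure_le.2 ?_) hz
    rintro _ rfl
    obtain ⟨x, hx⟩ := ht
    exact ⟨algebraMap L (FractionRing L) x, by rw [hj, hx]⟩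
  obtain ⟨w, rfl⟩ := hz'
  obtain ⟨P, hP, hPz⟩ := hint
  have h1 : (j.comp (algebraMap L (FractionRing L))).comp (e.symm : i.range →+* L) = algebraMap i.range ℂ := by
    ext x
    show j (algebraMap L (FractionRing L) (e.symm x)) = x
    rw [hj, ← he, RingEquiv.apply_symm_apply]
  have h2 : IsIntegral L w := by
    refine ⟨P.map (e.symm : i.range →+* L), hP.map _, ?_⟩
    apply j.injective
    rw [map_zero, Polynomial.hom_eval₂, Polynomial.eval₂_map, h1]
    exact hPz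
  obtain ⟨x, hx⟩ := IsIntegrallyClosed.isIntegral_iff.1 h2
  exact ⟨x, by rw [← hx, hj]⟩

open Polynomial in
private theorem base_abs {t : ℂ} (htr : Function.Injective (aeval t : ℤ[X] →ₐ[ℤ] ℂ)) {B k : Type} [CommRing B] [Field k]
    (cc : B →+* k) (hcc : ∀ x : B, cc x ≠ 0 → IsUnit x) (φ0 : ℤ[X] →+* B) :
    ∃ (A : Subring ℂ) (φ : A →+* B),
      (∀ f : ℤ[X], ∃ h : aeval t f ∈ A, φ ⟨aeval t f, h⟩ = φ0 f) ∧
      (∀ f : ℤ[X], cc (φ0 f) ≠ 0 → (aeval t f)⁻¹ ∈ A) ∧
      ∀ z : ℂ, z ∈ Subfield.closure {t} → IsIntegral A z → z ∈ A := by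
  let 𝔮 : Ideal ℤ[X] := RingHom.ker (cc.comp φ0)
  have hprime : 𝔮.IsPrime := RingHom.ker_isPrime _
  have hmem : ∀ f : ℤ[X], f ∈ 𝔮 ↔ cc (φ0 f) = 0 := fun f => RingHom.mem_ker
  have hev0 : ∀ f : ℤ[X], f ∉ 𝔮 → aeval t f ≠ 0 := by
    intro f hf h0
    apply hf
    have h1 : f = 0 := htr (by rw [h0, map_zero])
    rw [h1]
    exact 𝔮.zero_mem
  let ev : ℤ[X] →+* ℂ := (aeval t : ℤ[X] →ₐ[ℤ] ℂ).toRingHom
  have hev : ∀ y : 𝔮.primeCompl, IsUnit (ev y) := fun y => isUnit_iff_ne_zero.2 (hev0 y.1 y.2)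
  let L := Localization.AtPrime 𝔮
  have hle : 𝔮.primeCompl ≤ nonZeroDivisors ℤ[X] := Ideal.primeCompl_le_nonZeroDivisors 𝔮
  let i : L →+* ℂ := IsLocalization.lift (M := 𝔮.primeCompl) (g := ev) hev
  have hi : ∀ f : ℤ[X], i (algebraMap ℤ[X] L f) = aeval t f := fun f => IsLocalization.lift_eq hev f
  have hinj : Function.Injective i := by
    rw [IsLocalization.lift_injective_iff]
    intro x y
    constructor
    · intro h
      rw [IsLocalization.injective L hle h]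
    · intro h
      rw [htr h]
  have hφu : ∀ y : 𝔮.primeCompl, IsUnit (φ0 y) := fun y => hcc _ (fun h => y.2 ((hmem y.1).2 h))
  let φ' : L →+* B := IsLocalization.lift (M := 𝔮.primeCompl) (g := φ0) hφu
  have hφ' : ∀ f : ℤ[X], φ' (algebraMap ℤ[X] L f) = φ0 f := fun f => IsLocalization.lift_eq hφu f
  let e : L ≃+* i.range := RingEquiv.ofBijective i.rangeRestrict
    ⟨fun x y h => hinj (congrArg Subtype.val h), i.rangeRestrict_surjective⟩
  have he : ∀ x : L, ((e x : i.range) : ℂ) = i x := fun x => rfl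
  refine ⟨i.range, φ'.comp (e.symm : i.range →+* L), ?_, ?_, ?_⟩
  · intro f
    have h1 : aeval t f ∈ i.range := ⟨algebraMap ℤ[X] L f, hi f⟩
    refine ⟨h1, ?_⟩
    have h2 : e (algebraMap ℤ[X] L f) = ⟨aeval t f, h1⟩ := Subtype.ext (by rw [he, hi])
    rw [← h2]
    show φ' (e.symm (e _)) = _
    rw [RingEquiv.symm_apply_apply, hφ']
  · intro f hf
    have hu : IsUnit (algebraMap ℤ[X] L f) :=
      IsLocalization.map_units L (⟨f, fun h => hf ((hmem f).1 h)⟩ : 𝔮.primeCompl)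
    obtain ⟨u, hu⟩ := hu
    refine ⟨((u⁻¹ : Lˣ) : L), ?_⟩
    refine eq_inv_of_mul_eq_one_left ?_
    rw [← hi, ← hu, ← map_mul, Units.inv_mul, map_one]
  · intro z hz hint
    have hic : IsIntegrallyClosed L := isIntegrallyClosed_of_isLocalization L 𝔮.primeCompl hle
    exact closed_aux i hinj ⟨algebraMap ℤ[X] L X, by rw [hi, aeval_X]⟩ hz hint

theorem exists_base {q l : ℕ} (hq : q.Prime) (h5 : 5 ≤ q) (hl : l.Prime) (hlq : l ≠ q)
    {k : Type} [Field k] [CharP k q] (y : k) (h0 : y ≠ 0) (h1 : y ≠ 1728) :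
    ∃ (t : ℂ) (A : Subring ℂ) (φ : A →+* PowerSeries k) (ht : t ∈ A),
      t ≠ 0 ∧ t ≠ 1 ∧ t⁻¹ ∈ A ∧ (t - 1)⁻¹ ∈ A ∧ (2 : ℂ)⁻¹ ∈ A ∧ (3 : ℂ)⁻¹ ∈ A ∧ (l : ℂ)⁻¹ ∈ A ∧
      φ ⟨t, ht⟩ * (PowerSeries.C y + PowerSeries.X - 1728) = PowerSeries.C y + PowerSeries.X ∧
      ∀ z : ℂ, (∀ σ : ℂ ≃+* ℂ, σ t = t → σ z = z) → IsIntegral A z → z ∈ A := by
  let t : ℂ := ((liouvilleNumber ((2 : ℕ) : ℝ) : ℝ) : ℂ)
  have htr0 : Transcendental ℤ t := by
    have h2 := transcendental_liouvilleNumber (le_refl 2)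
    exact (transcendental_algebraMap_iff (R := ℤ) (S := ℝ) (A := ℂ) (algebraMap ℝ ℂ).injective).2 h2
  have htr : Function.Injective (Polynomial.aeval t : Polynomial ℤ →ₐ[ℤ] ℂ) :=
    transcendental_iff_injective.1 htr0
  have hy : y - 1728 ≠ 0 := sub_ne_zero.2 h1
  set J : PowerSeries k := PowerSeries.C y + PowerSeries.X - 1728 with hJ
  have hccJ : PowerSeries.constantCoeff J = y - 1728 := by
    rw [hJ, map_sub, map_add, PowerSeries.constantCoeff_C, PowerSeries.constantCoeff_X, add_zero]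
    congr 1
  have hJ1 : J * J⁻¹ = 1 := PowerSeries.mul_inv_cancel J (by rw [hccJ]; exact hy)
  set c : PowerSeries k := (PowerSeries.C y + PowerSeries.X) * J⁻¹ with hc
  have hcJ : c * J = PowerSeries.C y + PowerSeries.X := by
    rw [hc, mul_assoc, mul_comm J⁻¹, hJ1, mul_one]
  let φ0 : Polynomial ℤ →+* PowerSeries k := Polynomial.eval₂RingHom (Int.castRingHom _) c
  have hφX : φ0 Polynomial.X = c := Polynomial.eval₂_X _ _
  have hφn : ∀ n : ℕ, φ0 (n : Polynomial ℤ) = n := fun n => map_natCast φ0 n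
  obtain ⟨A, φ, hA1, hA2, hA3⟩ := base_abs htr (PowerSeries.constantCoeff (R := k))
    (fun x hx => PowerSeries.isUnit_iff_constantCoeff.2 (isUnit_iff_ne_zero.2 hx)) φ0
  obtain ⟨ht, hφt⟩ := hA1 Polynomial.X
  have hnat : ∀ n : ℕ, (n : k) ≠ 0 → ((n : ℕ) : ℂ)⁻¹ ∈ A := by
    intro n hn
    have h2 := hA2 (n : Polynomial ℤ) (by rw [hφn, map_natCast]; exact hn)
    rwa [map_natCast] at h2
  have hndvd : ∀ n : ℕ, ¬ q ∣ n → (n : k) ≠ 0 := fun n hn h => hn ((CharP.cast_eq_zero_iff k q n).1 h)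
  have hq2 : ¬ q ∣ 2 := fun h => by
    have := Nat.le_of_dvd (by norm_num) h
    omega
  have hq3 : ¬ q ∣ 3 := fun h => by
    have := Nat.le_of_dvd (by norm_num) h
    omega
  have hql : ¬ q ∣ l := fun h => hlq ((Nat.prime_dvd_prime_iff_eq hq hl).1 h).symm
  have h1728 : (1728 : k) ≠ 0 := by
    have h2 : ((2 : ℕ) : k) ≠ 0 := hndvd 2 hq2
    have h3 : ((3 : ℕ) : k) ≠ 0 := hndvd 3 hq3
    have h4 : (1728 : k) = ((2 : ℕ) : k) ^ 6 * ((3 : ℕ) : k) ^ 3 := by norm_num
    rw [h4]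
    exact mul_ne_zero (pow_ne_zero _ h2) (pow_ne_zero _ h3)
  have hccc : PowerSeries.constantCoeff c * (y - 1728) = y := by
    have h2 := congrArg (PowerSeries.constantCoeff (R := k)) hcJ
    rwa [map_mul, hccJ, map_add, PowerSeries.constantCoeff_C, PowerSeries.constantCoeff_X, add_zero] at h2
  have hc0 : PowerSeries.constantCoeff c ≠ 0 := by
    intro h2
    rw [h2, zero_mul] at hccc
    exact h0 hccc.symm
  have hc1 : PowerSeries.constantCoeff c - 1 ≠ 0 := by
    intro h2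
    rw [sub_eq_zero.1 h2, one_mul] at hccc
    apply h1728
    linear_combination -hccc
  have hX : Polynomial.aeval t (Polynomial.X : Polynomial ℤ) = t := Polynomial.aeval_X t
  refine ⟨t, A, φ, ?_, ?_, ?_, ?_, ?_, ?_, ?_, ?_, ?_, ?_⟩
  · rw [← hX]; exact ht
  · intro h2
    have h3 : (Polynomial.X : Polynomial ℤ) = 0 := htr (by rw [hX, h2, map_zero])
    exact Polynomial.X_ne_zero h3
  · intro h2
    have h3 : (Polynomial.X : Polynomial ℤ) = 1 := htr (by rw [hX, h2, map_one])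
    have h4 := congrArg Polynomial.natDegree h3
    rw [Polynomial.natDegree_X, Polynomial.natDegree_one] at h4
    exact one_ne_zero h4
  · have h2 := hA2 Polynomial.X (by rw [hφX]; exact hc0)
    rwa [hX] at h2
  · have h2 := hA2 (Polynomial.X - 1) (by rw [map_sub, map_one, hφX, map_sub, map_one]; exact hc1)
    rwa [map_sub, map_one, hX] at h2
  · have := hnat 2 (hndvd 2 hq2)
    simpa using this
  · have := hnat 3 (hndvd 3 hq3)
    simpa using this
  · exact hnat l (hndvd l hql)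
  · have h2 : φ ⟨t, by rw [← hX]; exact ht⟩ = c := by
      rw [← hφX, ← hφt]
      congr 1
      exact Subtype.ext hX.symm
    rw [h2]
    exact hcJ
  · intro z hz hint
    exact hA3 z (fix_field hz) hint

end Pool.Agent.SS
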