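import Pool.Agent.Work.MP_a5099b_nt.E.KrAdd

/-!
# Module E/Kr (size S-M): the torsion points of order prime to the residue characteristic are integral

PROOF. `kr`: let `P = (x, y)`, `x ∉ O`. By induction on `n` (`kr_add` with first argument `P`, `(n + 1) • P = P + n • P`): `inG O (n • P)` and
`zc (n • P) = n zc P + u zc P` with `u ∈ O.nonunits`. For `n = l`: `0 = (l + u) zc P`; `zc P ≠ 0` (`x ≠ 0`, `y ≠ 0`: `y² = x³ + a x + b = 0` would make
`x` integral over `O`), so `l = -u` is a nonunit, but `l⁻¹ ∈ O`. `int_tor`: the intersection of the valuation subrings containing `A` is the integral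
closure (`iInf_valuationSubring_superset`, `Subring.closure_eq`), so `x` is integral over `A`; `y² = x³ + a x + b` is integral, so `y` is.
-/

set_option autoImplicit false

namespace Pool.Agent.SS

theorem kr {F : Type*} [Field F] [DecidableEq F] (O : ValuationSubring F) {a b : F}
    (ha : a ∈ O) (hb : b ∈ O) {l : ℕ} (hl0 : (l : F) ≠ 0) (hl : (l : F)⁻¹ ∈ O) {x y : F}
    (hn : (crv a b).toAffine.Nonsingular x y)
    (ht : l • (WeierstrassCurve.Affine.Point.some x y hn : (crv a b).toAffine.Point) = 0) :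
    x ∈ O := by
  by_contra hx
  set P : (crv a b).toAffine.Point := WeierstrassCurve.Affine.Point.some x y hn with hP
  have hGP : inG O P := hx
  have key : ∀ n : ℕ, inG O (n • P) ∧ ∃ u ∈ O.nonunits, zc (n • P) = n * zc P + u * zc P := by
    intro n
    induction n with
    | zero =>
      rw [zero_nsmul]
      refine ⟨trivial, 0, O.nonunits.zero_mem, ?_⟩
      have : zc (0 : (crv a b).toAffine.Point) = 0 := rfl
      rw [this]
      simp
    | succ n ih =>
      obtain ⟨h1, u, hu, h2⟩ := ih
      obtain ⟨h3, u', hu', h4⟩ := kr_add O ha hb hGP h1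
      rw [succ_nsmul']
      refine ⟨h3, u + u', O.nonunits.add_mem hu hu', ?_⟩
      rw [h4, h2]
      push_cast
      ring
  obtain ⟨-, u, hu, h1⟩ := key l
  rw [ht] at h1
  have hz0 : zc (0 : (crv a b).toAffine.Point) = 0 := rfl
  rw [hz0] at h1
  have hx0 : x ≠ 0 := fun h => hx (h ▸ O.zero_mem)
  have heq : y ^ 2 = x ^ 3 + a * x + b := (crv_eq x y).mp hn.1
  have hxi : x⁻¹ ∈ O := (O.mem_or_inv_mem x).resolve_left hx
  have hy0 : y ≠ 0 := by
    intro hy
    apply hx
    rw [hy] at heq
    have h2 : x = -(a * x⁻¹) - b * (x⁻¹ * x⁻¹) := by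
      field_simp
      linear_combination -heq
    rw [h2]
    exact sub_mem (neg_mem (mul_mem ha hxi)) (mul_mem hb (mul_mem hxi hxi))
  have hzP : zc P ≠ 0 := by
    show -x / y ≠ 0
    exact div_ne_zero (neg_ne_zero.mpr hx0) hy0
  have h2 : (l : F) = -u := by
    have h3 : ((l : F) + u) * zc P = 0 := by
      linear_combination -h1
    rcases mul_eq_zero.mp h3 with h4 | h4
    · linear_combination h4
    · exact absurd h4 hzP
  have h3 : (l : F) ∈ O.nonunits := by
    rw [h2]
    exact O.nonunits.neg_mem hu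
  rw [ValuationSubring.mem_nonunits_iff_or] at h3
  rcases h3 with h3 | h3
  · exact hl0 h3
  · exact h3 hl

theorem int_tor {F : Type*} [Field F] [DecidableEq F] (A : Subring F) {a b : F}
    (ha : a ∈ A) (hb : b ∈ A) {l : ℕ} (hl0 : (l : F) ≠ 0) (hl : (l : F)⁻¹ ∈ A) {x y : F}
    (hn : (crv a b).toAffine.Nonsingular x y)
    (ht : l • (WeierstrassCurve.Affine.Point.some x y hn : (crv a b).toAffine.Point) = 0) :
    IsIntegral A x ∧ IsIntegral A y := by
  have hx : IsIntegral A x := by
    have h1 : x ∈ (⨅ V : {V : ValuationSubring F // (A : Set F) ⊆ V.toSubring}, V.1.toSubring) := by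
      rw [Subring.mem_iInf]
      rintro ⟨V, hV⟩
      exact kr V (hV ha) (hV hb) hl0 (hV hl) hn ht
    rw [iInf_valuationSubring_superset] at h1
    have h2 : IsIntegral (Subring.closure (A : Set F)) x := h1
    rw [Subring.closure_eq] at h2
    exact h2
  refine ⟨hx, ?_⟩
  have heq : y ^ 2 = x ^ 3 + a * x + b := (crv_eq x y).mp hn.1
  have hai : IsIntegral A a := isIntegral_algebraMap (x := (⟨a, ha⟩ : A))
  have hbi : IsIntegral A b := isIntegral_algebraMap (x := (⟨b, hb⟩ : A))
  apply IsIntegral.of_pow (n := 2) two_pos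
  rw [heq]
  exact ((hx.pow 3).add (hai.mul hx)).add hbi

end Pool.Agent.SS
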