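import Pool.Agent.Work.MP_a5099b_nt.E.Tor
import Pool.Agent.Work.MP_a5099b_nt.E.Kr

/-!
# Module E/Psi (size M): integrality of the torsion coordinates, the division polynomial over `A`

PROOF. `tor_int`: `crvL L = crv a b` with `a = -(g₂)/4, b = -(g₃)/4 ∈ A`, `int_tor`. `xtor_int`: `xtor_iff`, `tor_int`. `psi`: the coefficients of `f = ∏ (X - C x)` over `x ∈ xtor l L` are integral over `A`
(`Polynomial` coefficients of a product: the integral elements form a subring) and fixed by every automorphism `σ` with `σ t = t`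
(`xtor_conj`: `σ` permutes the finite set, `Polynomial.map`), so they are in `A` by `hA`; lift `f` to `A` (`Polynomial.lifts`, `Polynomial.toSubring`).
-/

set_option autoImplicit false

namespace Pool.Agent.SS

open Polynomial
open Pool.Agent.Work.CM

variable {L : Submodule ℤ ℂ}

theorem tor_int (A : Subring ℂ) (h2 : g2 L ∈ A) (h3 : g3 L ∈ A)
    (hi : (2 : ℂ)⁻¹ ∈ A) {l : ℕ} (hl0 : l ≠ 0) (hl : (l : ℂ)⁻¹ ∈ A) {x y : ℂ}
    (hn : (crvL L).toAffine.Nonsingular x y)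
    (ht : l • (WeierstrassCurve.Affine.Point.some x y hn : (crvL L).toAffine.Point) = 0) :
    IsIntegral A x ∧ IsIntegral A y := by
  have ha : -(g2 L) / 4 ∈ A := by
    have e : -(g2 L) / 4 = -(g2 L) * ((2 : ℂ)⁻¹ * (2 : ℂ)⁻¹) := by ring
    rw [e]
    exact A.mul_mem (A.neg_mem h2) (A.mul_mem hi hi)
  have hb : -(g3 L) / 4 ∈ A := by
    have e : -(g3 L) / 4 = -(g3 L) * ((2 : ℂ)⁻¹ * (2 : ℂ)⁻¹) := by ring
    rw [e]
    exact A.mul_mem (A.neg_mem h3) (A.mul_mem hi hi)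
  exact int_tor A ha hb (Nat.cast_ne_zero.2 hl0) hl hn ht

theorem xtor_int (h : IsLat L) (A : Subring ℂ) (h2 : g2 L ∈ A) (h3 : g3 L ∈ A)
    (hi : (2 : ℂ)⁻¹ ∈ A) {l : ℕ} (hl0 : l ≠ 0) (hl : (l : ℂ)⁻¹ ∈ A) {x : ℂ} (hx : x ∈ xtor l L) :
    IsIntegral A x := by
  obtain ⟨y, hn, ht⟩ := (xtor_iff h l x).1 hx
  exact (tor_int A h2 h3 hi hl0 hl hn ht).1

theorem psi (h : IsLat L) (A : Subring ℂ) (h2 : g2 L ∈ A) (h3 : g3 L ∈ A)
    (hi : (2 : ℂ)⁻¹ ∈ A) {l : ℕ} (hl0 : l ≠ 0) (hl : (l : ℂ)⁻¹ ∈ A)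
    (hA : ∀ z : ℂ, (∀ σ : ℂ ≃+* ℂ, σ (g2 L) = g2 L → σ (g3 L) = g3 L → σ z = z) →
      IsIntegral A z → z ∈ A)
    (hf : (xtor l L).Finite) :
    ∃ ψ : Polynomial A, ψ.Monic ∧ ψ.map A.subtype = ∏ x ∈ hf.toFinset, (X - C x) := by
  classical
  set f : ℂ[X] := ∏ x ∈ hf.toFinset, (X - C x) with hfd
  have hmon : f.Monic := monic_prod_of_monic _ _ fun x _ => monic_X_sub_C x
  have hfix : ∀ σ : ℂ ≃+* ℂ, σ (g2 L) = g2 L → σ (g3 L) = g3 L → f.map (σ : ℂ →+* ℂ) = f := by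
    intro σ e2 e3
    have e : hf.toFinset.image σ = hf.toFinset := by
      refine Finset.eq_of_subset_of_card_le ?_ ?_
      · intro y hy
        obtain ⟨x, hx, rfl⟩ := Finset.mem_image.1 hy
        rw [Set.Finite.mem_toFinset] at hx ⊢
        exact xtor_conj h σ e2 e3 hx
      · rw [Finset.card_image_of_injective _ σ.injective]
    rw [hfd, Polynomial.map_prod]
    conv_rhs => rw [← e, Finset.prod_image fun x _ y _ hxy => σ.injective hxy]
    refine Finset.prod_congr rfl fun x _ => ?_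
    simp
  have hint : ∀ n, IsIntegral A (f.coeff n) := by
    have hl' : f ∈ liftsRing (algebraMap (integralClosure A ℂ) ℂ) := by
      rw [hfd]
      refine Subring.prod_mem _ fun x hx => ?_
      rw [Set.Finite.mem_toFinset] at hx
      have hx' : x ∈ integralClosure A ℂ := xtor_int h A h2 h3 hi hl0 hl hx
      refine Subring.sub_mem _ ?_ ?_
      · exact ⟨X, by simp⟩
      · exact ⟨C ⟨x, hx'⟩, by simp⟩
    intro n
    have h5 : f ∈ lifts (algebraMap (integralClosure A ℂ) ℂ) := hl'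
    rw [lifts_iff_coeff_lifts] at h5
    obtain ⟨z, hz⟩ := h5 n
    rw [← hz]
    exact z.2
  have hmem : ∀ n, f.coeff n ∈ A := by
    intro n
    refine hA _ ?_ (hint n)
    intro σ e2 e3
    have e := congrArg (fun p => p.coeff n) (hfix σ e2 e3)
    simp only [coeff_map] at e
    exact e
  have hc : (↑f.coeffs : Set ℂ) ⊆ A := by
    intro z hz
    obtain ⟨n, -, rfl⟩ := mem_coeffs_iff.1 (Finset.mem_coe.1 hz)
    exact hmem n
  refine ⟨f.toSubring A hc, (monic_toSubring _ _ _).2 hmon, ?_⟩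
  exact map_toSubring f A hc

end Pool.Agent.SS
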