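import Pool.Agent.Work.MP_a5099b_nt.E.Defs

/-!
# Module E/Sep (size M): different torsion points have different reductions

PROOF. Let `P1 = (x1, y1)`, `P2 = (x2, y2)`, all coordinates are in `S`; `φ y1² = φ y2²` (equation of the curve), so after replacing `P2` by
`-P2` (same `x`) `φ y1 = -φ y2`. If `P1 + P2 = 0` then `x1 = x2`. Otherwise `P3 = P1 + P2 = (x3, y3)` is a point with `l • P3 = 0`, so `x3 ∈ S`.
If `x1 ≠ x2`: `(x3 + x1 + x2)(x1 - x2)² = (y1 - y2)²` (`add_of_X_ne`), apply `φ`: `0 = (2 φ y1)²`. If `x1 = x2` we are done.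
So `φ y1 = 0`. `P1 + P1 ≠ 0` (else `P1 = (l mod 2) • P1 = 0`, `l` odd), so `y1 ≠ 0`, its coordinate `x` is `x4 ∈ S` with
`(x4 + 2 x1) (2 y1)² = (3 x1² + a)²`; apply `φ`: `3 φ x1² + φ a = 0`, and `φ x1³ + φ a φ x1 + φ b = φ y1² = 0`. These give
`4 (φ a)³ + 27 (φ b)² = 0` (a polynomial combination: `φ a = -3 X²`, `φ b = 2 X³`), contradiction.
-/

set_option autoImplicit false

namespace Pool.Agent.SS

private theorem sep_aux {F κ : Type*} [Field F] [DecidableEq F] [Field κ] (S : Subring F)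
    (φ : S →+* κ)
    (h2 : (2 : κ) ≠ 0) {a b : S} (hd : 4 * φ a ^ 3 + 27 * φ b ^ 2 ≠ 0) {l : ℕ} (hl : Odd l)
    (hS : ∀ (x y : F) (hn : (crv (a : F) (b : F)).toAffine.Nonsingular x y),
      l • (WeierstrassCurve.Affine.Point.some x y hn : (crv (a : F) (b : F)).toAffine.Point) = 0 →
        x ∈ S ∧ y ∈ S)
    {x1 x2 y1 y2 : S} (h1 : (crv (a : F) (b : F)).toAffine.Nonsingular x1 y1)
    (h2' : (crv (a : F) (b : F)).toAffine.Nonsingular x2 y2)
    (t1 : l • (WeierstrassCurve.Affine.Point.some _ _ h1 :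
      (crv (a : F) (b : F)).toAffine.Point) = 0)
    (t2 : l • (WeierstrassCurve.Affine.Point.some _ _ h2' :
      (crv (a : F) (b : F)).toAffine.Point) = 0)
    (hx : φ x1 = φ x2) (hy : φ y1 + φ y2 = 0) : x1 = x2 := by
  by_contra hne
  have hneF : (x1 : F) ≠ x2 := fun h => hne (Subtype.ext h)
  have h2F : (2 : F) ≠ 0 := by
    intro h
    apply h2
    have h3 : (2 : S) = 0 := Subtype.ext h
    have h4 := congrArg φ h3
    rwa [map_ofNat, map_zero] at h4
  -- the sum
  have hadd := WeierstrassCurve.Affine.Point.add_of_X_ne (h₁ := h1) (h₂ := h2') hneF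
  have t3 : l • (WeierstrassCurve.Affine.Point.some _ _ h1 +
      WeierstrassCurve.Affine.Point.some _ _ h2' : (crv (a : F) (b : F)).toAffine.Point) = 0 := by
    rw [nsmul_add, t1, t2, add_zero]
  rw [hadd] at t3
  obtain ⟨hx3, -⟩ := hS _ _ _ t3
  rw [WeierstrassCurve.Affine.slope_of_X_ne hneF] at hx3
  have hsub : (x1 : F) - x2 ≠ 0 := sub_ne_zero.mpr hneF
  have e3 : ((crv (a : F) (b : F)).toAffine.addX (x1 : F) (x2 : F)
      (((y1 : F) - y2) / ((x1 : F) - x2)) + x1 + x2) * ((x1 : F) - x2) ^ 2 =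
      ((y1 : F) - y2) ^ 2 := by
    simp only [WeierstrassCurve.Affine.addX, crv]
    field_simp
    ring
  have e3S : (((⟨_, hx3⟩ : S) + x1 + x2) * (x1 - x2) ^ 2 : S) = (y1 - y2) ^ 2 := Subtype.ext e3
  have e3κ := congrArg φ e3S
  simp only [map_mul, map_add, map_pow, map_sub] at e3κ
  have hy1 : φ y1 = 0 := by
    have h3 : φ y2 = -φ y1 := by linear_combination hy
    rw [hx, sub_self, h3] at e3κ
    have h4 : (2 * φ y1) ^ 2 = 0 := by linear_combination -e3κ
    have h5 := pow_eq_zero_iff (two_ne_zero) |>.mp h4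
    exact (mul_eq_zero.mp h5).resolve_left h2
  -- the double
  have hy1F : (y1 : F) ≠ 0 := by
    intro h0
    have hneg : (y1 : F) = (crv (a : F) (b : F)).toAffine.negY x1 y1 := by
      simp only [WeierstrassCurve.Affine.negY, crv]
      rw [h0]
      ring
    have hdb := WeierstrassCurve.Affine.Point.add_self_of_Y_eq (h₁ := h1) hneg
    obtain ⟨k, hk⟩ := hl
    rw [hk, add_nsmul, mul_comm, mul_nsmul, two_nsmul] at t1
    rw [mul_comm] at hk
    have t1' : (WeierstrassCurve.Affine.Point.some _ _ h1 :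
        (crv (a : F) (b : F)).toAffine.Point) = 0 := by
      have h5 := t1
      rw [← two_nsmul, ← mul_nsmul, mul_comm, mul_nsmul, two_nsmul, hdb, nsmul_zero, zero_add,
        one_nsmul] at h5
      exact h5
    exact WeierstrassCurve.Affine.Point.some_ne_zero _ t1'
  have hneg : (y1 : F) ≠ (crv (a : F) (b : F)).toAffine.negY x1 y1 := by
    simp only [WeierstrassCurve.Affine.negY, crv]
    intro h
    apply hy1F
    have h3 : 2 * (y1 : F) = 0 := by linear_combination h
    exact (mul_eq_zero.mp h3).resolve_left h2F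
  have hdb := WeierstrassCurve.Affine.Point.add_self_of_Y_ne (h₁ := h1) hneg
  have t4 : l • (WeierstrassCurve.Affine.Point.some _ _ h1 +
      WeierstrassCurve.Affine.Point.some _ _ h1 : (crv (a : F) (b : F)).toAffine.Point) = 0 := by
    rw [nsmul_add, t1, add_zero]
  rw [hdb] at t4
  obtain ⟨hx4, -⟩ := hS _ _ _ t4
  rw [WeierstrassCurve.Affine.slope_of_Y_ne rfl hneg] at hx4
  have e4 : ((crv (a : F) (b : F)).toAffine.addX (x1 : F) (x1 : F)
      ((3 * (x1 : F) ^ 2 + 2 * (crv (a : F) (b : F)).toAffine.a₂ * (x1 : F) +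
        (crv (a : F) (b : F)).toAffine.a₄ - (crv (a : F) (b : F)).toAffine.a₁ * (y1 : F)) /
        ((y1 : F) - (crv (a : F) (b : F)).toAffine.negY x1 y1)) + 2 * x1) * (2 * (y1 : F)) ^ 2 =
      (3 * (x1 : F) ^ 2 + a) ^ 2 := by
    have h3 : (y1 : F) - (crv (a : F) (b : F)).toAffine.negY x1 y1 = 2 * y1 := by
      simp only [WeierstrassCurve.Affine.negY, crv]
      ring
    rw [h3]
    have h4 : 2 * (y1 : F) ≠ 0 := mul_ne_zero h2F hy1F
    simp only [WeierstrassCurve.Affine.addX, crv]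
    field_simp
    ring
  have e4S : (((⟨_, hx4⟩ : S) + 2 * x1) * (2 * y1) ^ 2 : S) = (3 * x1 ^ 2 + a) ^ 2 :=
    Subtype.ext e4
  have e4κ := congrArg φ e4S
  simp only [map_mul, map_add, map_pow, map_ofNat, hy1] at e4κ
  have h5 : (3 * φ x1 ^ 2 + φ a) = 0 := by
    have h6 : (3 * φ x1 ^ 2 + φ a) ^ 2 = 0 := by
      rw [← e4κ]
      ring
    exact (pow_eq_zero_iff two_ne_zero).mp h6
  have heq : (y1 : F) ^ 2 = (x1 : F) ^ 3 + a * x1 + b := (crv_eq _ _).mp h1.1
  have heqS : (y1 ^ 2 : S) = x1 ^ 3 + a * x1 + b := Subtype.ext heq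
  have heqκ := congrArg φ heqS
  simp only [map_mul, map_add, map_pow, hy1] at heqκ
  apply hd
  have ha : φ a = -3 * φ x1 ^ 2 := by linear_combination h5
  have hb : φ b = 2 * φ x1 ^ 3 := by
    rw [ha] at heqκ
    linear_combination -heqκ
  rw [ha, hb]
  ring

theorem sep_tor {F κ : Type*} [Field F] [DecidableEq F] [Field κ] (S : Subring F) (φ : S →+* κ)
    (h2 : (2 : κ) ≠ 0) {a b : S} (hd : 4 * φ a ^ 3 + 27 * φ b ^ 2 ≠ 0) {l : ℕ} (hl : Odd l)
    (hS : ∀ (x y : F) (hn : (crv (a : F) (b : F)).toAffine.Nonsingular x y),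
      l • (WeierstrassCurve.Affine.Point.some x y hn : (crv (a : F) (b : F)).toAffine.Point) = 0 →
        x ∈ S ∧ y ∈ S)
    {x1 x2 : S} {y1 y2 : F} (h1 : (crv (a : F) (b : F)).toAffine.Nonsingular x1 y1)
    (h2' : (crv (a : F) (b : F)).toAffine.Nonsingular x2 y2)
    (t1 : l • (WeierstrassCurve.Affine.Point.some _ _ h1 :
      (crv (a : F) (b : F)).toAffine.Point) = 0)
    (t2 : l • (WeierstrassCurve.Affine.Point.some _ _ h2' :
      (crv (a : F) (b : F)).toAffine.Point) = 0)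
    (hx : φ x1 = φ x2) : x1 = x2 := by
  obtain ⟨-, hy1⟩ := hS _ _ h1 t1
  obtain ⟨-, hy2⟩ := hS _ _ h2' t2
  obtain ⟨Y1, rfl⟩ : ∃ Y : S, (Y : F) = y1 := ⟨⟨y1, hy1⟩, rfl⟩
  obtain ⟨Y2, rfl⟩ : ∃ Y : S, (Y : F) = y2 := ⟨⟨y2, hy2⟩, rfl⟩
  have heq : ∀ {x y : S}, (crv (a : F) (b : F)).toAffine.Nonsingular x y →
      φ y ^ 2 = φ x ^ 3 + φ a * φ x + φ b := by
    intro x y h
    have heq : (y : F) ^ 2 = (x : F) ^ 3 + a * x + b := (crv_eq _ _).mp h.1
    have heqS : (y ^ 2 : S) = x ^ 3 + a * x + b := Subtype.ext heq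
    have heqκ := congrArg φ heqS
    simpa only [map_mul, map_add, map_pow] using heqκ
  have e1 := heq h1
  have e2 := heq h2'
  rw [hx] at e1
  have e3 : (φ Y1 + φ Y2) * (φ Y1 - φ Y2) = 0 := by linear_combination e1 - e2
  rcases mul_eq_zero.mp e3 with h | h
  · exact sep_aux S φ h2 hd hl hS h1 h2' t1 t2 hx h
  · have hn : (crv (a : F) (b : F)).toAffine.Nonsingular (x2 : F) ((-Y2 : S) : F) := by
      rw [crv_nonsing] at h2' ⊢
      obtain ⟨g1, g2⟩ := h2'
      refine ⟨?_, ?_⟩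
      · push_cast
        rw [neg_sq]
        exact g1
      · rcases g2 with g2 | g2
        · exact Or.inl g2
        · right
          push_cast
          intro h0
          apply g2
          linear_combination -h0
    have hneg : (WeierstrassCurve.Affine.Point.some _ _ hn :
        (crv (a : F) (b : F)).toAffine.Point) = -WeierstrassCurve.Affine.Point.some _ _ h2' := by
      rw [WeierstrassCurve.Affine.Point.neg_some]
      congr 1
      simp only [WeierstrassCurve.Affine.negY, crv]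
      push_cast
      ring
    have t2' : l • (WeierstrassCurve.Affine.Point.some _ _ hn :
        (crv (a : F) (b : F)).toAffine.Point) = 0 := by
      rw [hneg, smul_neg, t2, neg_zero]
    refine sep_aux S φ h2 hd hl hS h1 hn t1 t2' hx ?_
    rw [map_neg]
    linear_combination h

end Pool.Agent.SS
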