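import Pool.Agent.Work.CM.Disc
import Pool.Agent.Work.MP_a5099b_nt.E.Psi
import Pool.Agent.Work.MP_a5099b_nt.E.Sep

/-!
# Module E/Dist (size S-M): the reductions of the torsion coordinates are different

PROOF. `sep_tor` with `F = ℂ`, `S = (integralClosure A ℂ).toSubring`, `φ = g`, `a = -(g₂)/4`, `b = -(g₃)/4` (elements of `A`),
`4 a³ + 27 b² = -(g₂³ - 27 g₃²)/16 = -dsc L/16`, a unit of `A`, so its image is not `0`; `hS` is `tor_int`; the points come from `xtor_iff`.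
-/

set_option autoImplicit false

namespace Pool.Agent.SS

open Pool.Agent.Work.CM

variable {L : Submodule ℤ ℂ}

theorem xtor_dist (h : IsLat L) (A : Subring ℂ) (h2 : g2 L ∈ A) (h3 : g3 L ∈ A)
    (hi : (2 : ℂ)⁻¹ ∈ A) (hd : (dsc L)⁻¹ ∈ A) {l : ℕ} (hl2 : Odd l) (hl : (l : ℂ)⁻¹ ∈ A)
    {κ : Type*} [Field κ] (h2κ : (2 : κ) ≠ 0) (g : integralClosure A ℂ →+* κ)
    {x1 x2 : integralClosure A ℂ} (hx1 : (x1 : ℂ) ∈ xtor l L) (hx2 : (x2 : ℂ) ∈ xtor l L)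
    (hg : g x1 = g x2) : x1 = x2 := by
  have hAB : ∀ z : ℂ, z ∈ A → z ∈ (integralClosure A ℂ).toSubring := fun z hz =>
    isIntegral_algebraMap (R := A) (A := ℂ) (x := ⟨z, hz⟩)
  have hl0 : l ≠ 0 := by
    rintro rfl
    exact absurd hl2 (by decide)
  have haA : -(g2 L) / 4 ∈ A := by
    have e : -(g2 L) / 4 = -(g2 L * ((2 : ℂ)⁻¹ * (2 : ℂ)⁻¹)) := by norm_num; ring
    rw [e]
    exact A.neg_mem (A.mul_mem h2 (A.mul_mem hi hi))
  have hbA : -(g3 L) / 4 ∈ A := by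
    have e : -(g3 L) / 4 = -(g3 L * ((2 : ℂ)⁻¹ * (2 : ℂ)⁻¹)) := by norm_num; ring
    rw [e]
    exact A.neg_mem (A.mul_mem h3 (A.mul_mem hi hi))
  have hdne : dsc L ≠ 0 := by
    unfold dsc
    rw [sub_ne_zero]
    exact h.disc
  let S : Subring ℂ := (integralClosure A ℂ).toSubring
  let φ : S →+* κ := g
  let a : S := ⟨-(g2 L) / 4, hAB _ haA⟩
  let b : S := ⟨-(g3 L) / 4, hAB _ hbA⟩
  let e : S := ⟨-16 * (dsc L)⁻¹, hAB _ (A.mul_mem (by
    have : (-16 : ℂ) = ((-16 : ℤ) : ℂ) := by norm_num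
    rw [this]
    exact intCast_mem A _) hd)⟩
  have hunit : (4 * a ^ 3 + 27 * b ^ 2) * e = 1 := by
    apply Subtype.ext
    show (4 * (-(g2 L) / 4) ^ 3 + 27 * (-(g3 L) / 4) ^ 2) * (-16 * (dsc L)⁻¹) = 1
    have e1 : (4 * (-(g2 L) / 4) ^ 3 + 27 * (-(g3 L) / 4) ^ 2) * (-16) = dsc L := by
      unfold dsc; ring
    rw [← mul_assoc, e1, mul_inv_cancel₀ hdne]
  have hdφ : 4 * φ a ^ 3 + 27 * φ b ^ 2 ≠ 0 := by
    intro h0
    have h1 := congrArg φ hunit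
    simp only [map_mul, map_add, map_pow, map_one, map_ofNat] at h1
    rw [h0, zero_mul] at h1
    exact zero_ne_one h1
  obtain ⟨y1, n1, t1⟩ := (xtor_iff h l _).1 hx1
  obtain ⟨y2, n2, t2⟩ := (xtor_iff h l _).1 hx2
  have key := sep_tor S φ h2κ (a := a) (b := b) hdφ hl2
    (fun x y hn ht => tor_int A h2 h3 hi hl0 hl hn ht)
    (x1 := x1) (x2 := x2) n1 n2 t1 t2 hg
  exact key

end Pool.Agent.SS
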