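import Mathlib

/-!
# Module E/Hens (size S-M): polynomials over `k⟦X⟧` whose reduction has only simple roots

PROOF. Induction on the number of elements of `s`. If `s = 0`, `f` is monic of degree `0`, `f = 1`, `u = 0`. If `s = a ::ₘ s'`: `a` is a simple root of the reduction
(`a ∉ s'`), `k⟦X⟧` is a Henselian local ring (`IsAdicComplete.henselianRing`, `HenselianLocalRing`; or construct the root by successive approximation), so there is
`b ∈ k⟦X⟧` with `f.eval b = 0`, constant coefficient `a`. `f = (X - C b) * g` (`Polynomial.dvd_iff_isRoot`), `g` monic, its reduction is the product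
over `s'` (cancel `X - C a`). Induction.
-/

set_option autoImplicit false

namespace Pool.Agent.SS

open Polynomial

private theorem exists_root {k : Type*} [Field k] {f : Polynomial (PowerSeries k)} (hf : f.Monic) (a : k)
    (h1 : (f.map (PowerSeries.constantCoeff (R := k))).IsRoot a)
    (h2 : (derivative (f.map (PowerSeries.constantCoeff (R := k)))).eval a ≠ 0) :
    ∃ b : PowerSeries k, f.IsRoot b ∧ PowerSeries.constantCoeff b = a := by
  have h3 : HenselianRing (PowerSeries k) (Ideal.span {(PowerSeries.X : PowerSeries k)}) := inferInstance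
  have hker : ∀ x : PowerSeries k, x ∈ Ideal.span {(PowerSeries.X : PowerSeries k)} ↔ PowerSeries.constantCoeff x = 0 := by
    intro x
    rw [Ideal.mem_span_singleton, PowerSeries.X_dvd_iff]
  have hev : ∀ g : Polynomial (PowerSeries k), PowerSeries.constantCoeff (g.eval (PowerSeries.C a)) =
      (g.map (PowerSeries.constantCoeff (R := k))).eval a := by
    intro g
    rw [Polynomial.eval_map]
    nth_rewrite 2 [← PowerSeries.constantCoeff_C (R := k) a]
    rw [Polynomial.eval₂_at_apply]
  obtain ⟨b, hb, hb'⟩ := h3.is_henselian f hf (PowerSeries.C a) ((hker _).2 (by rw [hev]; exact h1)) (by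
    refine IsUnit.map _ ?_
    rw [PowerSeries.isUnit_iff_constantCoeff, hev, isUnit_iff_ne_zero, ← Polynomial.derivative_map]
    exact h2)
  refine ⟨b, hb, ?_⟩
  have := (hker _).1 hb'
  rw [map_sub, PowerSeries.constantCoeff_C, sub_eq_zero] at this
  exact this

theorem hens_split {k : Type*} [Field k] {f : Polynomial (PowerSeries k)} (hf : f.Monic)
    {s : Multiset k} (hs : s.Nodup)
    (hfs : f.map (PowerSeries.constantCoeff (R := k)) = (s.map fun a => X - C a).prod) :
    ∃ u : Multiset (PowerSeries k), f = (u.map fun a => X - C a).prod := by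
  induction s using Multiset.induction_on generalizing f with
  | empty =>
    refine ⟨0, ?_⟩
    rw [Multiset.map_zero, Multiset.prod_zero] at hfs ⊢
    have h1 : f.natDegree = 0 := by
      rw [← hf.natDegree_map (PowerSeries.constantCoeff (R := k)), hfs, natDegree_one]
    exact hf.natDegree_eq_zero.1 h1
  | cons a s ih =>
    rw [Multiset.map_cons, Multiset.prod_cons] at hfs
    rw [Multiset.nodup_cons] at hs
    have hroot : (f.map (PowerSeries.constantCoeff (R := k))).IsRoot a := by
      rw [hfs, IsRoot, eval_mul, eval_sub, eval_X, eval_C, sub_self, zero_mul]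
    have hne : (s.map fun a => X - C a).prod.eval a ≠ 0 := by
      rw [Polynomial.eval_multiset_prod, Multiset.map_map]
      intro h0
      rw [Multiset.prod_eq_zero_iff, Multiset.mem_map] at h0
      obtain ⟨b, hb, hab⟩ := h0
      simp only [Function.comp_apply, eval_sub, eval_X, eval_C, sub_eq_zero] at hab
      exact hs.1 (hab ▸ hb)
    obtain ⟨b, hb, hab⟩ := exists_root hf a hroot (by
      rw [hfs, derivative_mul, eval_add, eval_mul, eval_mul]
      simp [hne])
    obtain ⟨g, rfl⟩ := dvd_iff_isRoot.2 hb
    have hg : g.Monic := (monic_X_sub_C b).of_mul_monic_left hf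
    have h2 : g.map (PowerSeries.constantCoeff (R := k)) = (s.map fun a => X - C a).prod := by
      rw [Polynomial.map_mul, Polynomial.map_sub, Polynomial.map_X, Polynomial.map_C, hab] at hfs
      exact mul_left_cancel₀ (X_sub_C_ne_zero a) hfs
    obtain ⟨u, hu⟩ := ih hg hs.2 h2
    refine ⟨b ::ₘ u, ?_⟩
    rw [Multiset.map_cons, Multiset.prod_cons, ← hu]

end Pool.Agent.SS
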