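import Pool.Agent.Work.MP_a5099b_nt.E.Ext
import Pool.Agent.Work.MP_a5099b_nt.E.Hens
import Pool.Agent.Work.MP_a5099b_nt.E.Dist

/-!
# Module E/InB (size M): the images of the torsion coordinates are power series

PROOF. `ψ` from `psi`. `exists_ext` for `constantCoeff ∘ φ : A → k` gives `g' : R → k`, `R = integralClosure A ℂ`. The reduction of `ψ.map φ` is
`ψ.map (constantCoeff ∘ φ) = ∏_{x ∈ xtor} (X - C (g' x))` (map the identity `ψ.map (algebraMap A R) = ∏ (X - C x)` in `R[X]`, which holds because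
`R → ℂ` is injective), and the `g' x` are different by `xtor_dist` (`κ = k`). `hens_split`: `ψ.map φ = ∏_{b ∈ u} (X - C b)` over `k⟦X⟧`. Apply `ι`:
`∏ (X - C (ι b)) = ψ.map (ι ∘ φ) = ∏_{x} (X - C (g x))`, so `g x` is a root of the left side, `g x = ι b`.
-/

set_option autoImplicit false

namespace Pool.Agent.SS

open Pool.Agent.Work.CM

variable {L : Submodule ℤ ℂ}

private theorem psi_map (A : Subring ℂ) (s : Finset ℂ) (hs : ∀ x ∈ s, IsIntegral A x)
    {ψ : Polynomial A} (hψ : ψ.map A.subtype = ∏ x ∈ s, (Polynomial.X - Polynomial.C x))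
    {B : Type*} [CommRing B] (γ : integralClosure A ℂ →+* B) :
    ψ.map (γ.comp (algebraMap A (integralClosure A ℂ))) =
      ∏ x ∈ s.attach, (Polynomial.X - Polynomial.C (γ ⟨x.1, hs x.1 x.2⟩)) := by
  have e1 : ψ.map (algebraMap A (integralClosure A ℂ)) =
      ∏ x ∈ s.attach, (Polynomial.X - Polynomial.C (⟨x.1, hs x.1 x.2⟩ : integralClosure A ℂ)) := by
    apply Polynomial.map_injective ((integralClosure A ℂ).val : integralClosure A ℂ →+* ℂ)
      Subtype.val_injective
    rw [Polynomial.map_map, Polynomial.map_prod]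
    have e2 : ((integralClosure A ℂ).val : integralClosure A ℂ →+* ℂ).comp
        (algebraMap A (integralClosure A ℂ)) = A.subtype := rfl
    rw [e2, hψ, ← Finset.prod_attach]
    refine Finset.prod_congr rfl fun x _ => ?_
    simp
  rw [← Polynomial.map_map, e1, Polynomial.map_prod]
  refine Finset.prod_congr rfl fun x _ => ?_
  simp

theorem xtor_inB (h : IsLat L) (A : Subring ℂ) (h2 : g2 L ∈ A) (h3 : g3 L ∈ A)
    (hi : (2 : ℂ)⁻¹ ∈ A) (hd : (dsc L)⁻¹ ∈ A) {l : ℕ} (hl2 : Odd l) (hl : (l : ℂ)⁻¹ ∈ A)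
    (hA : ∀ z : ℂ, (∀ σ : ℂ ≃+* ℂ, σ (g2 L) = g2 L → σ (g3 L) = g3 L → σ z = z) →
      IsIntegral A z → z ∈ A)
    {k : Type*} [Field k] [IsAlgClosed k] (h2k : (2 : k) ≠ 0) (φ : A →+* PowerSeries k)
    {M : Type*} [Field M] (ι : PowerSeries k →+* M)
    (g : integralClosure A ℂ →+* M) (hg : ∀ a : A, g (algebraMap A (integralClosure A ℂ) a) = ι (φ a))
    {x : integralClosure A ℂ} (hx : (x : ℂ) ∈ xtor l L) : g x ∈ ι.range := by
  classical
  have hl0 : l ≠ 0 := by
    rintro rfl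
    exact absurd hl2 (by decide)
  have hfin := xtor_finite h (Nat.pos_of_ne_zero hl0)
  obtain ⟨ψ, hψ, hψe⟩ := psi h A h2 h3 hi hl0 hl hA hfin
  have hmem : ∀ x ∈ hfin.toFinset, IsIntegral A x := fun x hx =>
    xtor_int h A h2 h3 hi hl0 hl (hfin.mem_toFinset.1 hx)
  obtain ⟨g', hg'⟩ := exists_ext A ((PowerSeries.constantCoeff (R := k)).comp φ)
  have c1 : g'.comp (algebraMap A (integralClosure A ℂ)) =
      (PowerSeries.constantCoeff (R := k)).comp φ := RingHom.ext hg'
  have c2 : g.comp (algebraMap A (integralClosure A ℂ)) = ι.comp φ := RingHom.ext hg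
  have m1 := psi_map A hfin.toFinset hmem hψe g'
  have m2 := psi_map A hfin.toFinset hmem hψe g
  rw [c1, ← Polynomial.map_map] at m1
  rw [c2, ← Polynomial.map_map] at m2
  have hnd : (hfin.toFinset.attach.val.map fun y => g' ⟨y.1, hmem y.1 y.2⟩).Nodup := by
    refine Multiset.Nodup.map_on ?_ hfin.toFinset.attach.nodup
    intro y _ z _ hyz
    have h4 := xtor_dist h A h2 h3 hi hd hl2 hl h2k g'
      (x1 := ⟨y.1, hmem y.1 y.2⟩) (x2 := ⟨z.1, hmem z.1 z.2⟩)
      (hfin.mem_toFinset.1 y.2) (hfin.mem_toFinset.1 z.2) hyz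
    have h6 : (y : ℂ) = (z : ℂ) := congrArg (fun w : integralClosure A ℂ => (w : ℂ)) h4
    exact Subtype.ext h6
  obtain ⟨u, hu⟩ := hens_split (f := ψ.map φ) (hψ.map φ) hnd (by
    rw [m1, Multiset.map_map]
    rfl)
  have hx' : (x : ℂ) ∈ hfin.toFinset := hfin.mem_toFinset.2 hx
  have h5 : ((ψ.map φ).map ι).eval (g x) = 0 := by
    rw [m2, Polynomial.eval_prod]
    refine Finset.prod_eq_zero (Finset.mem_attach _ ⟨(x : ℂ), hx'⟩) ?_
    simp
  rw [hu, Polynomial.map_multiset_prod, Multiset.map_map, Polynomial.eval_multiset_prod,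
    Multiset.map_map, Multiset.prod_eq_zero_iff] at h5
  obtain ⟨b, _, hb⟩ := Multiset.mem_map.1 h5
  refine ⟨b, ?_⟩
  simp only [Function.comp_apply, Polynomial.map_sub, Polynomial.map_X, Polynomial.map_C,
    Polynomial.eval_sub, Polynomial.eval_X, Polynomial.eval_C] at hb
  exact (sub_eq_zero.1 hb).symm

end Pool.Agent.SS
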