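import Mathlib
import Pool.Agent.Work.CM.Defs
import Pool.Agent.Work.MP_a5099b_nt.Defs

/-!
# MP_a5099b_nt, block E: definitions (helper34)

The curve of a lattice, the `x`-coordinates of its `l`-torsion points. No `sorry` in this file.
-/

set_option autoImplicit false

namespace Pool.Agent.SS

open Pool.Agent.Work.CM

noncomputable section

/-- The curve `y ^ 2 = x ^ 3 + a x + b`. -/
def crv {F : Type*} [CommRing F] (a b : F) : WeierstrassCurve F := ⟨0, 0, 0, a, b⟩

/-- The curve `y ^ 2 = x ^ 3 - (g₂ / 4) x - g₃ / 4` of a lattice; the point of `z ∉ L` is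
`(wp L z, wpd L z / 2)`. -/
def crvL (L : Submodule ℤ ℂ) : WeierstrassCurve ℂ := crv (-(g2 L) / 4) (-(g3 L) / 4)

/-- The set of the `x`-coordinates of the points `≠ 0` of order dividing `l`. -/
def xtor (l : ℕ) (L : Submodule ℤ ℂ) : Set ℂ := {x | ∃ z : ℂ, z ∉ L ∧ (l : ℂ) * z ∈ L ∧ wp L z = x}

open Classical in
/-- The point `(wp L z, wpd L z / 2)` of the curve of `L` (the point `0` if `z ∈ L`). -/
def ptL (L : Submodule ℤ ℂ) (z : ℂ) : (crvL L).toAffine.Point :=
  if hn : z ∉ L ∧ (crvL L).toAffine.Nonsingular (wp L z) (wpd L z / 2) then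
    .some (wp L z) (wpd L z / 2) hn.2 else 0

/-- The local parameter `-x / y`. -/
def zc {F : Type*} [Field F] {W : WeierstrassCurve F} : W.toAffine.Point → F
  | .zero => 0
  | .some x y _ => -x / y

/-- The point reduces to `0`: it is `0` or its coordinate `x` is not in `O`. -/
def inG {F : Type*} [Field F] (O : ValuationSubring F) {W : WeierstrassCurve F} :
    W.toAffine.Point → Prop
  | .zero => True
  | .some x _ _ => x ∉ O

/-- `g₂ ^ 3 - 27 g₃ ^ 2`. -/
def dsc (L : Submodule ℤ ℂ) : ℂ := g2 L ^ 3 - 27 * g3 L ^ 2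

end

section

variable {F : Type*} [Field F] {a b : F}

theorem crv_eq (x y : F) : (crv a b).toAffine.Equation x y ↔ y ^ 2 = x ^ 3 + a * x + b := by
  rw [WeierstrassCurve.Affine.equation_iff]
  simp [crv]

theorem crv_nonsing (x y : F) : (crv a b).toAffine.Nonsingular x y ↔
    y ^ 2 = x ^ 3 + a * x + b ∧ (3 * x ^ 2 + a ≠ 0 ∨ 2 * y ≠ 0) := by
  rw [WeierstrassCurve.Affine.nonsingular_iff, crv_eq]
  simp only [crv]
  constructor
  · rintro ⟨h, h' | h'⟩
    · refine ⟨h, Or.inl fun h0 => h' ?_⟩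
      linear_combination -h0
    · refine ⟨h, Or.inr fun h0 => h' ?_⟩
      linear_combination h0
  · rintro ⟨h, h' | h'⟩
    · refine ⟨h, Or.inl fun h0 => h' ?_⟩
      linear_combination -h0
    · refine ⟨h, Or.inr fun h0 => h' ?_⟩
      linear_combination h0

end

end Pool.Agent.SS
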