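import Pool.Agent.Work.MP_a5099b_nt.B.Dprod
import Pool.Agent.Work.MP_a5099b_nt.E.Defs

/-!
# Module E/Dprod: the product of the discriminants of the superlattices (from `B/Dprod`)
-/

set_option autoImplicit false

namespace Pool.Agent.SS

open Pool.Agent.Work.CM

theorem dsc_prod' {l : ℕ} (hl : l.Prime) (hl5 : 5 ≤ l) {L : Submodule ℤ ℂ} (h : IsLat L) :
    ∏ᶠ L' ∈ {L' | Sup l L L'}, dsc L' = (l : ℂ) ^ 12 * dsc L ^ (l + 1) ∨
      ∏ᶠ L' ∈ {L' | Sup l L L'}, dsc L' = -((l : ℂ) ^ 12 * dsc L ^ (l + 1)) :=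
  Or.inl (dsc_prod hl (by omega) h)

end Pool.Agent.SS
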