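import Pool.Agent.Work.CM.Bas2
import Pool.Agent.Work.MP_a5099b_nt.E.Defs

/-!
# Module E/Ser (size M): the series of `(z - l)⁻⁴` and `(z - l)⁻⁶`

PROOF. `L = P.lattice` for a `PeriodPair P`, `wp L = ℘[P]` (by definition). `wp` has at `z ∉ L` the power series with coefficients
`(i + 1) * P.sumInvPow z (i + 2)`, `i ≥ 1` (`PeriodPair.hasFPowerSeriesOnBall_weierstrassP`, `coeff_weierstrassPSeries`, `hasSum_sumInvPow`), so
`∑ (l - z)⁻⁴ = wp''(z)/6` and `∑ (l - z)⁻⁶ = wp''''(z)/120`. `wp' = wpd`, `wpd' = 6 wp² - g₂/2` off `L` (`IsLat.hasDerivAt`, `IsLat.hasDerivAt'`), so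
`wp''' = 12 wp wpd`, `wp'''' = 12 wpd² + 12 wp (6 wp² - g₂/2) = 120 wp³ - 18 g₂ wp - 12 g₃` (`IsLat.ode`).
Alternative: differentiate the series of `wpd` termwise.
-/

set_option autoImplicit false

namespace Pool.Agent.SS

open Pool.Agent.Work.CM
open Filter Topology

variable {L : Submodule ℤ ℂ}

private theorem deriv_wpd (h : IsLat L) {z : ℂ} (hz : z ∉ L) :
    deriv (wpd L) z = 6 * wp L z ^ 2 - g2 L / 2 := (h.hasDerivAt' hz).deriv

private theorem deriv2_wpd (h : IsLat L) {z : ℂ} (hz : z ∉ L) :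
    deriv (deriv (wpd L)) z = 12 * wp L z * wpd L z := by
  have h1 : deriv (wpd L) =ᶠ[𝓝 z] fun w => 6 * wp L w ^ 2 - g2 L / 2 := by
    filter_upwards [h.compl_mem_nhds hz] with w hw
    exact deriv_wpd h hw
  rw [h1.deriv_eq]
  have h2 : HasDerivAt (fun w => 6 * wp L w ^ 2 - g2 L / 2) (6 * (2 * wp L z ^ 1 * wpd L z)) z := by
    have h3 := ((h.hasDerivAt hz).fun_pow 2).const_mul 6
    simpa using h3.sub_const (g2 L / 2)
  rw [h2.deriv]
  ring

private theorem deriv3_wpd (h : IsLat L) {z : ℂ} (hz : z ∉ L) :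
    deriv (deriv (deriv (wpd L))) z = 120 * (wp L z ^ 3 - 3 / 20 * g2 L * wp L z - g3 L / 10) := by
  have h1 : deriv (deriv (wpd L)) =ᶠ[𝓝 z] fun w => 12 * wp L w * wpd L w := by
    filter_upwards [h.compl_mem_nhds hz] with w hw
    exact deriv2_wpd h hw
  rw [h1.deriv_eq]
  have h2 : HasDerivAt (fun w => 12 * wp L w * wpd L w)
      (12 * wpd L z * wpd L z + 12 * wp L z * (6 * wp L z ^ 2 - g2 L / 2)) z :=
    ((h.hasDerivAt hz).const_mul 12).fun_mul (h.hasDerivAt' hz)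
  rw [h2.deriv]
  linear_combination 12 * h.ode hz

theorem hasSum_four (h : IsLat L) {z : ℂ} (hz : z ∉ L) :
    HasSum (fun l : L => ((z + l) ^ 4)⁻¹) (wp L z ^ 2 - g2 L / 12) := by
  have hz' : -z ∉ L := fun h' => hz (by simpa using L.neg_mem h')
  have h2 := deriv_wpd h hz'
  rw [h.wp_neg] at h2
  obtain ⟨P, rfl⟩ := h
  have h1 := P.deriv_derivWeierstrassPExcept_self (-z)
  rw [P.derivWeierstrassPExcept_of_notMem _ hz'] at h1
  have h3 : P.sumInvPow (-z) 4 = wp P.lattice z ^ 2 - g2 P.lattice / 12 := by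
    have h4 : (6 : ℂ) * P.sumInvPow (-z) 4 = 6 * wp P.lattice z ^ 2 - g2 P.lattice / 2 := by
      rw [← h1]
      exact h2
    have h6 : (6 : ℂ) ≠ 0 := by norm_num
    apply mul_left_cancel₀ h6
    rw [h4]
    ring
  rw [← h3]
  refine (P.hasSum_sumInvPow (-z) (r := 4) (by norm_num)).congr_fun ?_
  intro l
  rw [sub_neg_eq_add, add_comm]

theorem hasSum_six (h : IsLat L) {z : ℂ} (hz : z ∉ L) :
    HasSum (fun l : L => ((z + l) ^ 6)⁻¹) (wp L z ^ 3 - 3 / 20 * g2 L * wp L z - g3 L / 10) := by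
  have hz' : -z ∉ L := fun h' => hz (by simpa using L.neg_mem h')
  have h2 := deriv3_wpd h hz'
  rw [h.wp_neg] at h2
  obtain ⟨P, rfl⟩ := h
  have h1 := P.iteratedDeriv_derivWeierstrassPExcept_self (-z) (n := 3)
  rw [P.derivWeierstrassPExcept_of_notMem _ hz', iteratedDeriv_succ, iteratedDeriv_succ, iteratedDeriv_one] at h1
  have h3 : P.sumInvPow (-z) 6 =
      wp P.lattice z ^ 3 - 3 / 20 * g2 P.lattice * wp P.lattice z - g3 P.lattice / 10 := by
    have h4 : (120 : ℂ) * P.sumInvPow (-z) 6 =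
        120 * (wp P.lattice z ^ 3 - 3 / 20 * g2 P.lattice * wp P.lattice z - g3 P.lattice / 10) := by
      rw [← h2]
      have h5 : (((3 + 2).factorial : ℕ) : ℂ) = 120 := by norm_num [Nat.factorial]
      rw [h5] at h1
      exact h1.symm
    have h6 : (120 : ℂ) ≠ 0 := by norm_num
    exact mul_left_cancel₀ h6 h4
  rw [← h3]
  refine (P.hasSum_sumInvPow (-z) (r := 6) (by norm_num)).congr_fun ?_
  intro l
  rw [sub_neg_eq_add, add_comm]

end Pool.Agent.SS
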