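import Pool.Agent.Work.CM.Rep
import Pool.Agent.Work.MP_a5099b_nt.E.Ser

/-!
# Module E/Velu (size M): the invariants of a superlattice

PROOF. `exists_reps` gives a finite set of representatives of `L'/L`; remove redundant elements (for instance take the image of the finite set
`L'/L` minus `0` under `Quotient.out`, or choose a minimal `T`) to get a `Finset T` with `c ∈ L'`, `c ∉ L` for `c ∈ T`, and every `z ∈ L'`, `z ∉ L` is `c + l` for
exactly one `c ∈ T`, `l ∈ L`. For `k ≥ 3` the series `∑_{L'} (l^k)⁻¹` is absolutely convergent (`PeriodPair.hasSum_sumInvPow` with `x = 0`), so it is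
`∑_{L} (l^k)⁻¹ + ∑_{c ∈ T} ∑_{l ∈ L} ((c + l)^k)⁻¹` (bijection `L' ≃ L ⊕ T × L`). Multiply by `60`, `140` and use `hasSum_four`, `hasSum_six`.
-/

set_option autoImplicit false

namespace Pool.Agent.SS

open Pool.Agent.Work.CM

variable {L L' : Submodule ℤ ℂ}

/-- the sum over a superlattice -/
private theorem hasSum_cosets (hle : L ≤ L') (T : Finset ℂ)
    (hT : ∀ c ∈ T, c ∈ L' ∧ c ∉ L) (hT2 : ∀ z ∈ L', z ∈ L ∨ ∃ t ∈ T, z - t ∈ L)
    (hT3 : ∀ c ∈ T, ∀ d ∈ T, c - d ∈ L → c = d) (f : ℂ → ℂ) (a0 : ℂ) (a : ℂ → ℂ)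
    (h0 : HasSum (fun l : L => f l) a0) (h1 : ∀ c ∈ T, HasSum (fun l : L => f (c + l)) (a c)) :
    HasSum (fun l : L' => f l) (a0 + ∑ c ∈ T, a c) := by
  classical
  have h0T : (0 : ℂ) ∉ T := fun h => (hT 0 h).2 L.zero_mem
  let g : ℂ → L → ℂ := fun c l => c + l
  have hg : ∀ c, Function.Injective (g c) := fun c x y hxy => by
    have : c + (x : ℂ) = c + y := hxy
    exact Subtype.ext (add_left_cancel this)
  let b : ℂ → ℂ := fun c => if c = 0 then a0 else a c
  have hdis : ((insert 0 T : Finset ℂ) : Set ℂ).Pairwise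
      (Function.onFun Disjoint fun c => Set.range (g c)) := by
    intro c hc d hd hcd
    refine Set.disjoint_left.2 ?_
    rintro _ ⟨x, rfl⟩ ⟨y, hy⟩
    apply hcd
    have hy' : d + (y : ℂ) = c + x := hy
    have hm : c - d ∈ L := by
      have : c - d = (y : ℂ) - x := by linear_combination -hy'
      rw [this]
      exact L.sub_mem y.2 x.2
    rcases Finset.mem_insert.1 (Finset.mem_coe.1 hc) with rfl | hc'
    · rcases Finset.mem_insert.1 (Finset.mem_coe.1 hd) with rfl | hd'
      · rfl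
      · rw [zero_sub, L.neg_mem_iff] at hm
        exact absurd hm (hT d hd').2
    · rcases Finset.mem_insert.1 (Finset.mem_coe.1 hd) with rfl | hd'
      · rw [sub_zero] at hm
        exact absurd hm (hT c hc').2
      · exact hT3 c hc' d hd' hm
  have hs : ∀ c ∈ insert 0 T, HasSum (f ∘ ((↑) : Set.range (g c) → ℂ)) (b c) := by
    intro c hc
    have := (hg c).hasSum_range_iff (f := f) (a := b c)
    refine this.2 ?_
    rcases Finset.mem_insert.1 hc with rfl | hc'
    · have e : b 0 = a0 := if_pos rfl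
      rw [e]
      have e2 : f ∘ g 0 = fun l : L => f l := by
        funext l
        simp [g]
      rw [e2]
      exact h0
    · have hc0 : c ≠ 0 := fun h => h0T (h ▸ hc')
      have e : b c = a c := if_neg hc0
      rw [e]
      exact h1 c hc'
  have hmain := hasSum_sum_disjoint (insert 0 T) hdis hs
  have hU : (⋃ c ∈ insert 0 T, Set.range (g c)) = (L' : Set ℂ) := by
    ext z
    simp only [Set.mem_iUnion, Set.mem_range, SetLike.mem_coe]
    constructor
    · rintro ⟨c, hc, l, rfl⟩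
      rcases Finset.mem_insert.1 hc with rfl | hc'
      · have : g 0 l = l := zero_add _
        rw [this]
        exact hle l.2
      · exact L'.add_mem (hT c hc').1 (hle l.2)
    · intro hz
      rcases hT2 z hz with h | ⟨t, ht, h⟩
      · exact ⟨0, Finset.mem_insert_self _ _, ⟨z, h⟩, zero_add _⟩
      · exact ⟨t, Finset.mem_insert_of_mem ht, ⟨z - t, h⟩, add_sub_cancel _ _⟩
  rw [hU] at hmain
  have e : ∑ c ∈ insert 0 T, b c = a0 + ∑ c ∈ T, a c := by
    rw [Finset.sum_insert h0T]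
    have e0 : b 0 = a0 := if_pos rfl
    rw [e0]
    congr 1
    refine Finset.sum_congr rfl fun c hc => ?_
    have hc0 : c ≠ 0 := fun h => h0T (h ▸ hc)
    exact if_neg hc0
  rw [e] at hmain
  exact hmain

private theorem exists_tr (h : IsLat L) (h' : IsLat L') (hle : L ≤ L') :
    ∃ T : Finset ℂ, (∀ c ∈ T, c ∈ L' ∧ c ∉ L) ∧ (∀ z ∈ L', z ∈ L ∨ ∃ t ∈ T, z - t ∈ L) ∧
      (∀ c ∈ T, ∀ d ∈ T, c - d ∈ L → c = d) := by
  classical
  obtain ⟨T0, h1, h2⟩ := exists_reps h h' hle
  let r : ℂ → ℂ := fun z => Quotient.out (L.mkQ z)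
  have hr : ∀ z, r z - z ∈ L := by
    intro z
    have : L.mkQ (r z) = L.mkQ z := Quotient.out_eq (L.mkQ z)
    rwa [← sub_eq_zero, ← map_sub, Submodule.mkQ_apply, Submodule.Quotient.mk_eq_zero] at this
  have hr2 : ∀ z w, r z - r w ∈ L → r z = r w := by
    intro z w hzw
    have e : L.mkQ z = L.mkQ w := by
      rw [← sub_eq_zero, ← map_sub, Submodule.mkQ_apply, Submodule.Quotient.mk_eq_zero]
      have : z - w = (r z - r w) - (r z - z) + (r w - w) := by ring
      rw [this]
      exact L.add_mem (L.sub_mem hzw (hr z)) (hr w)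
    exact congrArg Quotient.out e
  refine ⟨T0.image r, ?_, ?_, ?_⟩
  · intro c hc
    obtain ⟨t, ht, rfl⟩ := Finset.mem_image.1 hc
    constructor
    · have : r t = (r t - t) + t := by ring
      rw [this]
      exact L'.add_mem (hle (hr t)) (h1 t ht).1
    · intro hm
      apply (h1 t ht).2
      have : t = r t - (r t - t) := by ring
      rw [this]
      exact L.sub_mem hm (hr t)
  · intro z hz
    rcases h2 z hz with h3 | ⟨t, ht, h3⟩
    · exact Or.inl h3
    · refine Or.inr ⟨r t, Finset.mem_image_of_mem _ ht, ?_⟩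
      have : z - r t = (z - t) - (r t - t) := by ring
      rw [this]
      exact L.sub_mem h3 (hr t)
  · intro c hc d hd hcd
    obtain ⟨t, ht, rfl⟩ := Finset.mem_image.1 hc
    obtain ⟨u, hu, rfl⟩ := Finset.mem_image.1 hd
    exact hr2 t u hcd

private theorem hasSum_inv_pow (h : IsLat L) {k : ℕ} (hk : 2 < k) :
    HasSum (fun l : L => ((l : ℂ) ^ k)⁻¹) (∑' l : L, ((l : ℂ) ^ k)⁻¹) := by
  obtain ⟨P, rfl⟩ := h
  have := P.hasSum_sumInvPow 0 hk
  simp only [sub_zero] at this
  exact this.summable.hasSum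

theorem velu (h : IsLat L) (h' : IsLat L') (hle : L ≤ L') :
    ∃ T : Finset ℂ, (∀ c ∈ T, c ∈ L' ∧ c ∉ L) ∧
      g2 L' = g2 L + ∑ c ∈ T, (60 * wp L c ^ 2 - 5 * g2 L) ∧
      g3 L' = g3 L + ∑ c ∈ T, (140 * wp L c ^ 3 - 21 * g2 L * wp L c - 14 * g3 L) := by
  obtain ⟨T, h1, h2, h3⟩ := exists_tr h h' hle
  refine ⟨T, h1, ?_, ?_⟩
  · have e := hasSum_cosets hle T h1 h2 h3 (fun z => (z ^ 4)⁻¹) _ _
      (hasSum_inv_pow h (k := 4) (by norm_num)) (fun c hc => hasSum_four h (h1 c hc).2)
    have e' := e.tsum_eq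
    rw [g2, g2, e', mul_add, Finset.mul_sum]
    congr 1
    refine Finset.sum_congr rfl fun c hc => ?_
    rw [g2]
    ring
  · have e := hasSum_cosets hle T h1 h2 h3 (fun z => (z ^ 6)⁻¹) _ _
      (hasSum_inv_pow h (k := 6) (by norm_num)) (fun c hc => hasSum_six h (h1 c hc).2)
    have e' := e.tsum_eq
    rw [g3, g3, e', mul_add, Finset.mul_sum]
    congr 1
    refine Finset.sum_congr rfl fun c hc => ?_
    rw [g3]
    ring

end Pool.Agent.SS
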