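import Pool.Agent.Work.CM.Disc
import Pool.Agent.Work.MP_a5099b_nt.E.Velu
import Pool.Agent.Work.MP_a5099b_nt.E.Dprod

/-!
# Module E/Jin (size M): the invariants of the superlattices of prime index lie in the ring of the torsion coordinates

PROOF. `sup_mul_mem`: the index of `L` in `L'` is `l`, so `l c ∈ L` for `c ∈ L'` (`AddSubgroup.relIndex`, Lagrange in the quotient). For `Sup l L L'` let
`T` be as in `velu`: `wp L c ∈ xtor l L ⊆ S` for `c ∈ T`, so `g₂(L'), g₃(L'), dsc L' ∈ S`. The product of the `dsc L'` over all `L'` (finite set: otherwise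
the `finprod` would be over an infinite support, equal to `1`; or use that there are finitely many `L'` between `L` and `l⁻¹ L`; if the set is infinite or the
product is taken over it, `dsc_prod` still gives ... : use finiteness of `{L' | Sup l L L'}`, see `B/SupF`) is `± l^12 dsc L ^ (l+1)`, a unit of `S` (`(l)⁻¹`, `(dsc L)⁻¹ ∈ S`),
so `(dsc L')⁻¹ = ± (l⁻¹)^12 ((dsc L)⁻¹)^(l+1) ∏_{L'' ≠ L'} dsc L'' ∈ S` and `jL L' = 1728 g₂(L')³ (dsc L')⁻¹ ∈ S`.
-/

set_option autoImplicit false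

namespace Pool.Agent.SS

open Pool.Agent.Work.CM

variable {L L' : Submodule ℤ ℂ}

theorem sup_mul_mem {l : ℕ} (hs : Sup l L L') {c : ℂ} (hc : c ∈ L') : (l : ℂ) * c ∈ L := by
  have h1 := (L.toAddSubgroup.addSubgroupOf L'.toAddSubgroup).nsmul_index_mem ⟨c, hc⟩
  have h2 : (L.toAddSubgroup.addSubgroupOf L'.toAddSubgroup).index = l := hs.idx
  rw [h2] at h1
  have h3 : l • c ∈ L := h1
  rwa [nsmul_eq_mul] at h3

private theorem inv_mem_S {l : ℕ} (h : IsLat L) (S : Subring ℂ) (h2 : g2 L ∈ S)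
    (h3 : g3 L ∈ S) (hx : ∀ x ∈ xtor l L, x ∈ S) (hs : Sup l L L') : g2 L' ∈ S ∧ g3 L' ∈ S := by
  obtain ⟨T, hT, e2, e3⟩ := velu h hs.lat' hs.le
  have hw : ∀ c ∈ T, wp L c ∈ S := fun c hc =>
    hx _ ⟨c, (hT c hc).2, sup_mul_mem hs (hT c hc).1, rfl⟩
  have hn : ∀ n : ℕ, (n : ℂ) ∈ S := fun n => natCast_mem S n
  have h60 : (60 : ℂ) ∈ S := by exact_mod_cast hn 60
  have h5 : (5 : ℂ) ∈ S := by exact_mod_cast hn 5
  have h140 : (140 : ℂ) ∈ S := by exact_mod_cast hn 140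
  have h21 : (21 : ℂ) ∈ S := by exact_mod_cast hn 21
  have h14 : (14 : ℂ) ∈ S := by exact_mod_cast hn 14
  constructor
  · rw [e2]
    refine S.add_mem h2 (S.sum_mem fun c hc => ?_)
    exact S.sub_mem (S.mul_mem h60 (S.pow_mem (hw c hc) 2)) (S.mul_mem h5 h2)
  · rw [e3]
    refine S.add_mem h3 (S.sum_mem fun c hc => ?_)
    exact S.sub_mem (S.sub_mem (S.mul_mem h140 (S.pow_mem (hw c hc) 3))
      (S.mul_mem (S.mul_mem h21 h2) (hw c hc))) (S.mul_mem h14 h3)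

private theorem dsc_mem {S : Subring ℂ} {M : Submodule ℤ ℂ} (h : g2 M ∈ S ∧ g3 M ∈ S) : dsc M ∈ S := by
  have h27 : (27 : ℂ) ∈ S := by exact_mod_cast natCast_mem S 27
  exact S.sub_mem (S.pow_mem h.1 3) (S.mul_mem h27 (S.pow_mem h.2 2))

theorem jL_memE {l : ℕ} (hl : l.Prime) (hl5 : 5 ≤ l) (h : IsLat L)
    (hfin : {L' | Sup l L L'}.Finite) (S : Subring ℂ) (h2 : g2 L ∈ S)
    (h3 : g3 L ∈ S) (hi : (l : ℂ)⁻¹ ∈ S) (hd : (dsc L)⁻¹ ∈ S) (hx : ∀ x ∈ xtor l L, x ∈ S)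
    (hs : Sup l L L') : jL L' ∈ S := by
  classical
  have hne : ∀ M : Submodule ℤ ℂ, IsLat M → dsc M ≠ 0 := fun M hM => sub_ne_zero.2 hM.disc
  have hl0 : (l : ℂ) ≠ 0 := by exact_mod_cast hl.ne_zero
  have hmem : L' ∈ hfin.toFinset := hfin.mem_toFinset.2 hs
  have hrest : ∏ M ∈ hfin.toFinset.erase L', dsc M ∈ S := by
    refine S.prod_mem fun M hM => ?_
    have hM' : Sup l L M := hfin.mem_toFinset.1 (Finset.mem_of_mem_erase hM)
    exact dsc_mem (inv_mem_S h S h2 h3 hx hM')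
  have hprod := dsc_prod' hl hl5 h
  rw [finprod_mem_eq_finite_toFinset_prod _ hfin, ← Finset.mul_prod_erase _ _ hmem] at hprod
  have hinv : ((l : ℂ) ^ 12 * dsc L ^ (l + 1))⁻¹ ∈ S := by
    rw [mul_inv, ← inv_pow, ← inv_pow]
    exact S.mul_mem (S.pow_mem hi 12) (S.pow_mem hd (l + 1))
  have hu : (l : ℂ) ^ 12 * dsc L ^ (l + 1) ≠ 0 := mul_ne_zero (pow_ne_zero _ hl0) (pow_ne_zero _ (hne L h))
  have hL' := hne L' hs.lat'
  have hinv' : (dsc L')⁻¹ ∈ S := by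
    rcases hprod with hp | hp
    · have h4 : (dsc L')⁻¹ = (∏ M ∈ hfin.toFinset.erase L', dsc M) * ((l : ℂ) ^ 12 * dsc L ^ (l + 1))⁻¹ := by
        rw [← hp, mul_inv]
        have h5 : ∏ M ∈ hfin.toFinset.erase L', dsc M ≠ 0 := by
          intro h0
          rw [h0, mul_zero] at hp
          exact hu hp.symm
        field_simp
      rw [h4]
      exact S.mul_mem hrest hinv
    · have h4 : (dsc L')⁻¹ = -((∏ M ∈ hfin.toFinset.erase L', dsc M) * ((l : ℂ) ^ 12 * dsc L ^ (l + 1))⁻¹) := by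
        have h6 : (l : ℂ) ^ 12 * dsc L ^ (l + 1) = -(dsc L' * ∏ M ∈ hfin.toFinset.erase L', dsc M) := by
          rw [hp, neg_neg]
        rw [h6]
        have h5 : ∏ M ∈ hfin.toFinset.erase L', dsc M ≠ 0 := by
          intro h0
          rw [h0, mul_zero] at h6
          exact hu (by rw [h6, neg_zero])
        field_simp
      rw [h4]
      exact S.neg_mem (S.mul_mem hrest hinv)
  have h1728 : (1728 : ℂ) ∈ S := by exact_mod_cast natCast_mem S 1728
  have hj : jL L' = 1728 * g2 L' ^ 3 * (dsc L')⁻¹ := by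
    rw [jL, dsc, div_eq_mul_inv]
  rw [hj]
  exact S.mul_mem (S.mul_mem h1728 (S.pow_mem (inv_mem_S h S h2 h3 hx hs).1 3)) hinv'

end Pool.Agent.SS
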