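import Pool.Agent.Work.CM.Unif
import Pool.Agent.Work.CM.Disc
import Pool.Agent.Work.MP_a5099b_nt.SpecB
import Pool.Agent.Work.MP_a5099b_nt.E.Base
import Pool.Agent.Work.MP_a5099b_nt.E.InB
import Pool.Agent.Work.MP_a5099b_nt.E.Jin

/-!
# Block E: assembly
-/

set_option autoImplicit false

namespace Pool.Agent.SS

open Polynomial
open Pool.Agent.Work.CM

/-- finiteness of the set of superlattices -/
theorem sup_finite {l : ℕ} (hl : l.Prime) {L : Submodule ℤ ℂ} (h : IsLat L) :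
    {L' | Sup l L L'}.Finite := by
  by_contra hinf
  have h1 := PhiAt_lat hl h
  have h2 := PhiAt_natDegree hl (A := ℂ) (jL L)
  rw [h1, finprod_mem_eq_one_of_infinite] at h2
  · simp at h2
  · have h3 : {L' | Sup l L L'} ∩ (Function.mulSupport fun L' => (X - C (jL L') : ℂ[X])) =
        {L' | Sup l L L'} := by
      refine Set.inter_eq_left.2 fun L' _ => ?_
      rw [Function.mem_mulSupport]
      intro h4
      have h5 := congrArg natDegree h4
      rw [natDegree_X_sub_C, natDegree_one] at h5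
      exact one_ne_zero h5
    rw [h3]
    exact hinf

theorem phi_split_gen {l : ℕ} (hl : l.Prime) (hl5 : 5 ≤ l) {L : Submodule ℤ ℂ} (h : IsLat L)
    (S : Subring ℂ) (h2 : g2 L ∈ S)
    (h3 : g3 L ∈ S) (hi : (l : ℂ)⁻¹ ∈ S) (hd : (dsc L)⁻¹ ∈ S) (hx : ∀ x ∈ xtor l L, x ∈ S)
    {B : Type*} [CommRing B] (γ : S →+* B) (hj : jL L ∈ S) :
    ∃ s : Multiset B, PhiAt l (γ ⟨jL L, hj⟩) = (s.map fun u => X - C u).prod := by
  classical
  have hfin := sup_finite hl h
  have hmem : ∀ L' ∈ hfin.toFinset, jL L' ∈ S := fun L' hL' =>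
    jL_memE hl hl5 h hfin S h2 h3 hi hd hx (hfin.mem_toFinset.1 hL')
  have e1 : PhiAt l (⟨jL L, hj⟩ : S) = ∏ L' ∈ hfin.toFinset.attach, (X - C (⟨jL L'.1, hmem _ L'.2⟩ : S)) := by
    have hinj : Function.Injective (Polynomial.map S.subtype) :=
      Polynomial.map_injective _ Subtype.val_injective
    apply hinj
    rw [PhiAt_map, Polynomial.map_prod]
    have e2 : PhiAt l (jL L) = ∏ L' ∈ hfin.toFinset, (X - C (jL L')) := by
      rw [PhiAt_lat hl h, finprod_mem_eq_finite_toFinset_prod _ hfin]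
    have e3 : (S.subtype ⟨jL L, hj⟩) = jL L := rfl
    rw [e3, e2, ← Finset.prod_attach]
    refine Finset.prod_congr rfl fun L' _ => ?_
    simp
  refine ⟨(hfin.toFinset.attach.val.map fun L' => γ ⟨jL L'.1, hmem _ L'.2⟩), ?_⟩
  rw [← PhiAt_map, e1, Polynomial.map_prod, Multiset.map_map]
  refine Finset.prod_congr rfl fun L' _ => ?_
  simp

theorem phi_split' {q l : ℕ} (hq : q.Prime) (h5 : 5 ≤ q) (hl : l.Prime) (hl5 : 5 ≤ l)
    (hlq : l ≠ q) {k : Type} [Field k] [CharP k q] [IsAlgClosed k] (y : k) (h0 : y ≠ 0)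
    (h1 : y ≠ 1728) :
    ∃ s : Multiset (PowerSeries k),
      PhiAt l (PowerSeries.C y + PowerSeries.X : PowerSeries k) =
        (s.map fun u => X - C u).prod := by
  obtain ⟨t, A, φ, ht, ht0, ht1, hti, hti1, h2i, h3i, hli, hφ, hA⟩ :=
    exists_base hq h5 hl hlq y h0 h1
  have hne : (3 * t) ^ 3 ≠ 27 * t ^ 2 := by
    intro h
    have h' : 27 * t ^ 2 * (t - 1) = 0 := by linear_combination h
    rcases mul_eq_zero.1 h' with h'' | h''
    · exact ht0 (by simpa using h'')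
    · exact ht1 (sub_eq_zero.1 h'')
  obtain ⟨L, hL, hg2, hg3⟩ := exists_lattice hne
  have h2A : g2 L ∈ A := by
    rw [hg2]
    exact mul_mem (by exact_mod_cast natCast_mem A 3) ht
  have h3A : g3 L ∈ A := by rwa [hg3]
  have hdsc : dsc L = 27 * t ^ 2 * (t - 1) := by
    rw [dsc, hg2, hg3]
    ring
  have hdi : (dsc L)⁻¹ ∈ A := by
    have e : (dsc L)⁻¹ = (3 : ℂ)⁻¹ ^ 3 * t⁻¹ ^ 2 * (t - 1)⁻¹ := by
      rw [hdsc]
      have : (27 : ℂ) = 3 ^ 3 := by norm_num
      rw [this, mul_inv, mul_inv, inv_pow, inv_pow]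
    rw [e]
    exact mul_mem (mul_mem (pow_mem h3i 3) (pow_mem hti 2)) hti1
  have hA' : ∀ z : ℂ, (∀ σ : ℂ ≃+* ℂ, σ (g2 L) = g2 L → σ (g3 L) = g3 L → σ z = z) →
      IsIntegral A z → z ∈ A := by
    intro z hz hzi
    refine hA z (fun σ hσ => hz σ ?_ ?_) hzi
    · rw [hg2, map_mul, hσ, map_ofNat]
    · rw [hg3, hσ]
  have hjL : jL L = 1728 * t * (t - 1)⁻¹ := by
    rw [jL, hg2, hg3]
    have ht1' : t - 1 ≠ 0 := sub_ne_zero.2 ht1
    have : (3 * t) ^ 3 - 27 * t ^ 2 = 27 * t ^ 2 * (t - 1) := by ring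
    rw [this]
    field_simp
    ring
  have hjA : jL L ∈ A := by
    rw [hjL]
    exact mul_mem (mul_mem (by exact_mod_cast natCast_mem A 1728) ht) hti1
  have hc2 : (2 : k) ≠ 0 := by
    intro h2
    have h3 : ((2 : ℕ) : k) = 0 := by exact_mod_cast h2
    rw [CharP.cast_eq_zero_iff k q] at h3
    exact absurd (Nat.le_of_dvd (by norm_num) h3) (by omega)
  have hodd : Odd l := hl.odd_of_ne_two (by omega)
  -- the algebraically closed field
  let M := AlgebraicClosure (FractionRing (PowerSeries k))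
  let ι : PowerSeries k →+* M :=
    (algebraMap (FractionRing (PowerSeries k)) M).comp (algebraMap (PowerSeries k) _)
  have hι : Function.Injective ι :=
    (algebraMap (FractionRing (PowerSeries k)) M).injective.comp
      (IsFractionRing.injective (PowerSeries k) (FractionRing (PowerSeries k)))
  obtain ⟨g, hg⟩ := exists_ext A (ι.comp φ)
  have hg' : ∀ a : A, g (algebraMap A (integralClosure A ℂ) a) = ι (φ a) := hg
  -- the ring of the elements with image in the power series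
  let S : Subring ℂ := ((ι.range).comap g).map (integralClosure A ℂ).toSubring.subtype
  have hAS : ∀ a (ha : a ∈ A), ∃ hS : a ∈ S, True := by
    intro a ha
    refine ⟨⟨algebraMap A (integralClosure A ℂ) ⟨a, ha⟩, ?_, rfl⟩, trivial⟩
    exact ⟨φ ⟨a, ha⟩, (hg' ⟨a, ha⟩).symm⟩
  have hAS' : A ≤ S := fun a ha => (hAS a ha).1
  have hxS : ∀ x ∈ xtor l L, x ∈ S := by
    intro x hx
    have hxi := xtor_int hL A h2A h3A h2i hl.ne_zero hli hx
    refine ⟨⟨x, hxi⟩, ?_, rfl⟩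
    exact xtor_inB hL A h2A h3A h2i hdi hodd hli hA' hc2 φ ι g hg' (x := ⟨x, hxi⟩) hx
  -- the homomorphism to the power series
  have hSR : ∀ s : S, ∃ r : integralClosure A ℂ, (r : ℂ) = s ∧ g r ∈ ι.range := by
    rintro ⟨s, r, hr, rfl⟩
    exact ⟨r, rfl, hr⟩
  have hSle : S ≤ (integralClosure A ℂ).toSubring := by
    rintro s ⟨r, -, rfl⟩
    exact r.2
  let gS : S →+* M := (g : (integralClosure A ℂ).toSubring →+* M).comp (Subring.inclusion hSle)
  have hgS : ∀ s : S, gS s ∈ ι.range := by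
    intro s
    obtain ⟨r, hr, hr'⟩ := hSR s
    have : (Subring.inclusion hSle s) = r := Subtype.ext hr.symm
    change g (Subring.inclusion hSle s) ∈ ι.range
    rw [this]
    exact hr'
  let e := RingEquiv.ofBijective ι.rangeRestrict
    ⟨fun a b hab => hι (congrArg Subtype.val hab), ι.rangeRestrict_surjective⟩
  let γ : S →+* PowerSeries k := (e.symm : ι.range →+* PowerSeries k).comp (gS.codRestrict ι.range hgS)
  have hγ : ∀ s : S, ι (γ s) = gS s := by
    intro s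
    have := congrArg Subtype.val (e.apply_symm_apply ⟨gS s, hgS s⟩)
    exact this
  have hγA : ∀ a : A, γ ⟨a, hAS' a.2⟩ = φ a := by
    intro a
    apply hι
    rw [hγ, ← hg' a]
    rfl
  obtain ⟨s, hs⟩ := phi_split_gen hl hl5 hL S (hAS' h2A) (hAS' h3A) (hAS' hli) (hAS' hdi) hxS γ
    (hAS' hjA)
  refine ⟨s, ?_⟩
  rw [← hs]
  congr 1
  rw [hγA ⟨jL L, hjA⟩]
  -- the value of `φ` at the invariant
  have hu : IsUnit (φ ⟨(t - 1)⁻¹, hti1⟩) := by
    refine IsUnit.map φ ?_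
    refine IsUnit.of_mul_eq_one ⟨t - 1, sub_mem ht (one_mem A)⟩ ?_
    refine Subtype.ext ?_
    exact inv_mul_cancel₀ (sub_ne_zero.2 ht1)
  have e1 : (⟨jL L, hjA⟩ : A) = 1728 * ⟨t, ht⟩ * ⟨(t - 1)⁻¹, hti1⟩ := by
    refine Subtype.ext ?_
    exact hjL
  have e2 : φ ⟨(t - 1)⁻¹, hti1⟩ * (φ ⟨t, ht⟩ - 1) = 1 := by
    have : φ ⟨(t - 1)⁻¹, hti1⟩ * φ (⟨t, ht⟩ - 1) = 1 := by
      rw [← map_mul, ← map_one φ]
      congr 1
      refine Subtype.ext ?_
      exact inv_mul_cancel₀ (sub_ne_zero.2 ht1)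
    rw [map_sub, map_one] at this
    exact this
  rw [e1, map_mul, map_mul]
  have e3 : φ 1728 = 1728 := map_ofNat φ 1728
  rw [e3]
  linear_combination (φ ⟨(t - 1)⁻¹, hti1⟩) * hφ -
    (PowerSeries.C y + PowerSeries.X : PowerSeries k) * e2

end Pool.Agent.SS
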