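import Mathlib

/-!
# Module E/Ext (size S-M): extension of homomorphisms to integral extensions

PROOF. `R = integralClosure A F` is integral over `A`. `𝔭 = ker f`; the kernel of `A → R` is `0`, so there is a prime `𝔓` of `R` over `𝔭`
(`Ideal.exists_ideal_over_prime_of_isIntegral`, ..). `A/𝔭 → R/𝔓` is injective and integral (algebraic), `A/𝔭 → M` is injective, `IsAlgClosed.lift` gives
`R/𝔓 → M` over `A/𝔭`.
-/

set_option autoImplicit false

namespace Pool.Agent.SS

theorem exists_ext {F : Type*} [Field F] (A : Subring F) {M : Type*} [Field M] [IsAlgClosed M]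
    (f : A →+* M) :
    ∃ g : integralClosure A F →+* M, ∀ a : A, g (algebraMap A (integralClosure A F) a) = f a := by
  have hp : (RingHom.ker f).IsPrime := RingHom.ker_isPrime f
  have hinj : Function.Injective (algebraMap A (integralClosure A F)) := by
    intro a b hab
    have h1 : (algebraMap A F) a = (algebraMap A F) b := by
      rw [IsScalarTower.algebraMap_apply A (integralClosure A F) F,
        IsScalarTower.algebraMap_apply A (integralClosure A F) F, hab]
    exact Subtype.ext h1
  have hle : Ideal.comap (algebraMap A (integralClosure A F)) ⊥ ≤ RingHom.ker f := by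
    intro a ha
    rw [Ideal.mem_comap, Ideal.mem_bot, map_eq_zero_iff _ hinj] at ha
    rw [ha]
    exact Ideal.zero_mem _
  obtain ⟨Q, -, hQp, hQ⟩ :=
    Ideal.exists_ideal_over_prime_of_isIntegral (RingHom.ker f) (⊥ : Ideal (integralClosure A F)) hle
  let P : Ideal A := Ideal.comap (algebraMap A (integralClosure A F)) Q
  have hP : P.IsPrime := Ideal.comap_isPrime _ _
  let f' : A ⧸ P →+* M := Ideal.Quotient.lift P f (fun a ha => by
    have : a ∈ RingHom.ker f := by
      rw [← hQ]
      exact ha
    exact this)
  have hf' : Function.Injective f' := by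
    rw [injective_iff_map_eq_zero]
    intro x hx
    obtain ⟨a, rfl⟩ := Ideal.Quotient.mk_surjective x
    have hx' : f a = 0 := hx
    rw [Ideal.Quotient.eq_zero_iff_mem]
    change a ∈ Ideal.comap (algebraMap A (integralClosure A F)) Q
    rw [hQ]
    exact hx'
  let _ : Algebra (A ⧸ P) M := f'.toAlgebra
  have h1 : Module.IsTorsionFree (A ⧸ P) M := by
    rw [Module.isTorsionFree_iff_faithfulSMul]
    exact (faithfulSMul_iff_algebraMap_injective _ _).mpr hf'
  have h2 : Algebra.IsIntegral (A ⧸ P) (integralClosure A F ⧸ Q) := Algebra.IsIntegral.quotient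
  have h3 : Module.IsTorsionFree (A ⧸ P) (integralClosure A F ⧸ Q) := by
    rw [Module.isTorsionFree_iff_faithfulSMul]
    exact (faithfulSMul_iff_algebraMap_injective _ _).mpr (Ideal.algebraMap_quotient_injective)
  have h4 : Algebra.IsAlgebraic (A ⧸ P) (integralClosure A F ⧸ Q) := Algebra.IsIntegral.isAlgebraic
  let g' : integralClosure A F ⧸ Q →ₐ[A ⧸ P] M := IsAlgClosed.lift
  refine ⟨g'.toRingHom.comp (Ideal.Quotient.mk Q), fun a => ?_⟩
  have h5 := g'.commutes (Ideal.Quotient.mk P a)
  exact h5

end Pool.Agent.SS
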