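import Pool.Agent.Work.CM.Bas2
import Pool.Agent.Work.CM.Inj
import Pool.Agent.Work.CM.Ident
import Pool.Agent.Work.MP_a5099b_nt.E.Defs

/-!
# Module E/Add (size M): the addition theorem of `wp` (coordinate `x`)

PROOF. Fix `s ∉ L`, `S = {z | z ∈ L ∨ s - z ∈ L ∨ 2 z - s ∈ L}`: closed and countable, so `Sᶜ` is open and preconnected
(`Set.Countable.isPathConnected_compl_of_one_lt_rank`). For `z ∉ S` put `x = wp z, x' = wp (s - z), y = wpd z, y' = wpd (s - z)`;
`x ≠ x'` by `IsLat.inj` (`z - (s - z) = 2 z - s`, `z + (s - z) = s`). `G z = ((y - y')/(x - x'))^2/4 - x - x'`. Its derivative on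
`Sᶜ` is `0` (`IsLat.hasDerivAt`, `IsLat.hasDerivAt'`, `IsLat.ode`): with `m = (y - y')/(x - x')`, `m' = 2 (x - x')` because
`(6x² - g₂/2 + 6x'² - g₂/2)(x - x') - (y - y')(y + y') = 2 (x - x')^3`, so `G' = m m'/2 - y + y' = 0`. So `G` is constant on `Sᶜ`
(`IsOpen.is_const_of_deriv_eq_zero`, or Mathlib's variants). Limit for `z → 0`, `z ≠ 0` (a punctured neighbourhood of `0` is
contained in `Sᶜ`, as `0 ∉ {s - z ∈ L} ∪ {2 z - s ∈ L}` closed, discrete `L`; if `-s`.. `2·0 - s = -s ∉ L`): `wp z = 1/z² + f z`, `f` analytic at `0`,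
`f 0 = 0` (`IsLat.exists_local`), `wpd z = -2/z³ + f' z` (derivative, near `0`, `z ≠ 0`), so
`G z = ((-2 + z³(f' - y'))² - 4 (1 + z²(f + x')) (1 + z²(f - x'))²)/(4 z² (1 + z²(f - x'))²)`, and the numerator is `-4 z² (3 f - x') + z³ (..)`,
so `G z → wp s`. Hence `G = wp s` on `Sᶜ`. For the theorem take `s = z + w`.
-/

set_option autoImplicit false

namespace Pool.Agent.SS

open Pool.Agent.Work.CM
open Filter Topology

/-- the exceptional set -/
private def exc (L : Submodule ℤ ℂ) (s : ℂ) : Set ℂ :=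
  {z | z ∈ L} ∪ ({z | s - z ∈ L} ∪ {z | 2 * z - s ∈ L})

private theorem exc_closed {L : Submodule ℤ ℂ} (h : IsLat L) (s : ℂ) : IsClosed (exc L s) := by
  have hc := h.isClosed
  refine hc.union ((hc.preimage (f := fun z : ℂ => s - z) (by fun_prop)).union
    (hc.preimage (f := fun z : ℂ => 2 * z - s) (by fun_prop)))

private theorem exc_countable {L : Submodule ℤ ℂ} (h : IsLat L) (s : ℂ) : (exc L s).Countable := by
  have hc := h.countable
  refine hc.union ((hc.preimage (f := fun z : ℂ => s - z) ?_).union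
    (hc.preimage (f := fun z : ℂ => 2 * z - s) ?_))
  · intro a b hab
    have h1 : s - a = s - b := hab
    linear_combination -h1
  · intro a b hab
    have h1 : 2 * a - s = 2 * b - s := hab
    linear_combination h1 / 2

/-- the function -/
private noncomputable def GG' (L : Submodule ℤ ℂ) (s z : ℂ) : ℂ :=
  ((wpd L z - wpd L (s - z)) / (wp L z - wp L (s - z))) ^ 2 / 4 - wp L z - wp L (s - z)

private theorem ne_of {L : Submodule ℤ ℂ} (h : IsLat L) {s z : ℂ} (hs : s ∉ L) (hz : z ∉ exc L s) :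
    wp L z - wp L (s - z) ≠ 0 := by
  intro h0
  have h1 : z ∉ L := fun hc => hz (Or.inl hc)
  have h2 : s - z ∉ L := fun hc => hz (Or.inr (Or.inl hc))
  have h3 : 2 * z - s ∉ L := fun hc => hz (Or.inr (Or.inr hc))
  rcases h.inj h1 h2 (sub_eq_zero.1 h0) with h4 | h4
  · apply h3
    have e : z - (s - z) = 2 * z - s := by ring
    rwa [e] at h4
  · apply hs
    have e : z + (s - z) = s := by ring
    rwa [e] at h4

private theorem deriv_GG {L : Submodule ℤ ℂ} (h : IsLat L) {s z : ℂ} (hs : s ∉ L)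
    (hz : z ∉ exc L s) : HasDerivAt (GG' L s) 0 z := by
  have h1 : z ∉ L := fun hc => hz (Or.inl hc)
  have h2 : s - z ∉ L := fun hc => hz (Or.inr (Or.inl hc))
  have hne := ne_of h hs hz
  have hx := h.hasDerivAt h1
  have hy := h.hasDerivAt' h1
  have hx' : HasDerivAt (fun z => wp L (s - z)) (-wpd L (s - z)) z :=
    HasDerivAt.comp_const_sub s z (h.hasDerivAt h2)
  have hy' : HasDerivAt (fun z => wpd L (s - z)) (-(6 * wp L (s - z) ^ 2 - g2 L / 2)) z :=
    HasDerivAt.comp_const_sub s z (h.hasDerivAt' h2)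
  have hm := (hy.fun_sub hy').fun_div (hx.fun_sub hx') hne
  have hG := (((hm.fun_pow 2).div_const 4).fun_sub hx).fun_sub hx'
  have ho := h.ode h1
  have ho' := h.ode h2
  refine hG.congr_deriv ?_
  have hne2 : (wp L z - wp L (s - z)) ^ 2 ≠ 0 := pow_ne_zero _ hne
  have key : (6 * wp L z ^ 2 - g2 L / 2 - -(6 * wp L (s - z) ^ 2 - g2 L / 2)) *
      (wp L z - wp L (s - z)) - (wpd L z - wpd L (s - z)) * (wpd L z - -wpd L (s - z)) =
      2 * (wp L z - wp L (s - z)) ^ 3 := by
    linear_combination ho' - ho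
  rw [key]
  generalize wp L z - wp L (s - z) = d at hne
  generalize wpd L z = u
  generalize wpd L (s - z) = t
  have e3 : 2 * d ^ 3 / d ^ 2 = 2 * d := by
    field_simp
  have e4 : (u - t) / d * d = u - t := div_mul_cancel₀ _ hne
  rw [e3, show (2 : ℕ) - 1 = 1 from rfl, pow_one]
  push_cast
  linear_combination e4

private theorem const_GG {L : Submodule ℤ ℂ} (h : IsLat L) {s z w : ℂ} (hs : s ∉ L)
    (hz : z ∉ exc L s) (hw : w ∉ exc L s) : GG' L s z = GG' L s w := by
  have hconn : IsPreconnected ((exc L s)ᶜ : Set ℂ) :=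
    ((exc_countable h s).isPathConnected_compl_of_one_lt_rank
      (by rw [Complex.rank_real_complex]; exact Cardinal.one_lt_two)).isConnected.isPreconnected
  refine (exc_closed h s).isOpen_compl.is_const_of_deriv_eq_zero hconn ?_ ?_ hz hw
  · intro z hz
    exact (deriv_GG h hs hz).differentiableAt.differentiableWithinAt
  · intro z hz
    exact (deriv_GG h hs hz).deriv

private theorem value_GG {L : Submodule ℤ ℂ} (h : IsLat L) {s C : ℂ} (hs : s ∉ L)
    (hC : ∀ z ∉ exc L s, GG' L s z = C) : C = wp L s := by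
  obtain ⟨f, hf, hf0, hfz⟩ := h.exists_local
  have hcx : ContinuousAt (fun z => wp L (s - z)) 0 := by
    have h1 : ContinuousAt (wp L) (s - 0) := by
      rw [sub_zero]
      exact (h.analyticOnNhd s hs).continuousAt
    exact ContinuousAt.comp (g := wp L) (f := fun z : ℂ => s - z) h1 (by fun_prop)
  have hcy : ContinuousAt (fun z => wpd L (s - z)) 0 := by
    have h1 : ContinuousAt (wpd L) (s - 0) := by
      rw [sub_zero]
      exact (h.analyticOnNhd' s hs).continuousAt
    exact ContinuousAt.comp (g := wpd L) (f := fun z : ℂ => s - z) h1 (by fun_prop)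
  have hcf : ContinuousAt f 0 := hf.continuousAt
  have hcf' : ContinuousAt (deriv f) 0 := hf.deriv.continuousAt
  let A : ℂ → ℂ := fun z => deriv f z - wpd L (s - z)
  let B : ℂ → ℂ := fun z => C + f z + wp L (s - z)
  let D : ℂ → ℂ := fun z => f z - wp L (s - z)
  let E : ℂ → ℂ := fun z => 4 * (B z + 2 * D z) + 4 * (z * A z) + z ^ 2 * (4 * D z ^ 2 + 8 * (B z * D z)) +
    4 * (z ^ 4 * (B z * D z ^ 2)) - z ^ 4 * A z ^ 2
  have hE : ContinuousAt E 0 := by
    have hA : ContinuousAt A 0 := hcf'.sub hcy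
    have hB : ContinuousAt B 0 := (continuousAt_const.add hcf).add hcx
    have hD : ContinuousAt D 0 := hcf.sub hcx
    have hid : ContinuousAt (fun z : ℂ => z) 0 := continuousAt_id
    exact (((((hB.add (hD.const_mul 2)).const_mul 4).add ((hid.mul hA).const_mul 4)).add
      ((hid.pow 2).mul (((hD.pow 2).const_mul 4).add ((hB.mul hD).const_mul 8)))).add
      (((hid.pow 4).mul (hB.mul (hD.pow 2))).const_mul 4)).sub ((hid.pow 4).mul (hA.pow 2))
  have hE0 : ∀ᶠ z in 𝓝[≠] (0 : ℂ), E z = 0 := by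
    have h1 : ∀ᶠ z in 𝓝[≠] (0 : ℂ), z ∉ L := h.compl_mem_nhdsNE 0
    have h2 : ∀ᶠ z in 𝓝[≠] (0 : ℂ), s - z ∉ L := by
      apply mem_nhdsWithin_of_mem_nhds
      have : IsOpen ((fun z : ℂ => s - z) ⁻¹' ((L : Set ℂ)ᶜ)) :=
        h.isClosed.isOpen_compl.preimage (by fun_prop)
      exact this.mem_nhds (by simpa using hs)
    have h3 : ∀ᶠ z in 𝓝[≠] (0 : ℂ), 2 * z - s ∉ L := by
      apply mem_nhdsWithin_of_mem_nhds
      have : IsOpen ((fun z : ℂ => 2 * z - s) ⁻¹' ((L : Set ℂ)ᶜ)) :=
        h.isClosed.isOpen_compl.preimage (by fun_prop)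
      exact this.mem_nhds (by simpa using hs)
    have h4 : ∀ᶠ z in 𝓝[≠] (0 : ℂ), DifferentiableAt ℂ f z :=
      mem_nhdsWithin_of_mem_nhds (hf.eventually_analyticAt.mono fun z hz => hz.differentiableAt)
    filter_upwards [h1, h2, h3, h4, self_mem_nhdsWithin] with z h1 h2 h3 h4 h5
    have hz0 : z ≠ 0 := h5
    have hz : z ∉ exc L s := by
      rintro (hc | hc | hc)
      · exact h1 hc
      · exact h2 hc
      · exact h3 hc
    have hne := ne_of h hs hz
    have hG := hC z hz
    have hd : wpd L z = -2 / z ^ 3 + deriv f z := by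
      have e1 : HasDerivAt (fun z => 1 / z ^ 2 + f z) (-2 / z ^ 3 + deriv f z) z := by
        have e2 : HasDerivAt (fun z : ℂ => 1 / z ^ 2) (-2 / z ^ 3) z := by
          have e3 := (hasDerivAt_pow 2 z).fun_inv (pow_ne_zero 2 hz0)
          simp only [one_div]
          refine e3.congr_deriv ?_
          field_simp
          push_cast
          ring
        exact e2.fun_add h4.hasDerivAt
      have e4 : (fun z => 1 / z ^ 2 + f z) = wp L := by
        funext z
        rw [hfz z]
      rw [e4] at e1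
      exact (h.hasDerivAt h1).unique e1
    have heq : (wpd L z - wpd L (s - z)) ^ 2 =
        4 * (C + wp L z + wp L (s - z)) * (wp L z - wp L (s - z)) ^ 2 := by
      rw [← hG]
      unfold GG'
      field_simp
      ring
    rw [hd, hfz z] at heq
    have hfin : z ^ 2 * E z = 0 := by
      have e5 : z ^ 6 * (-2 / z ^ 3 + deriv f z - wpd L (s - z)) ^ 2 =
          (-2 + z ^ 3 * (deriv f z - wpd L (s - z))) ^ 2 := by
        field_simp
        ring
      have e6 : z ^ 6 * (4 * (C + (1 / z ^ 2 + f z) + wp L (s - z)) *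
          (1 / z ^ 2 + f z - wp L (s - z)) ^ 2) =
          4 * (1 + z ^ 2 * (C + f z + wp L (s - z))) * (1 + z ^ 2 * (f z - wp L (s - z))) ^ 2 := by
        field_simp
        ring
      have e7 : z ^ 6 * (-2 / z ^ 3 + deriv f z - wpd L (s - z)) ^ 2 =
          z ^ 6 * (4 * (C + (1 / z ^ 2 + f z) + wp L (s - z)) *
            (1 / z ^ 2 + f z - wp L (s - z)) ^ 2) := by rw [heq]
      rw [e5, e6] at e7
      simp only [E, A, B, D]
      linear_combination -e7
    rcases mul_eq_zero.1 hfin with h6 | h6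
    · exact absurd h6 (pow_ne_zero 2 hz0)
    · exact h6
  have hlim : Tendsto E (𝓝[≠] (0 : ℂ)) (𝓝 (E 0)) := hE.tendsto.mono_left nhdsWithin_le_nhds
  have hlim0 : Tendsto E (𝓝[≠] (0 : ℂ)) (𝓝 0) := by
    refine tendsto_const_nhds.congr' ?_
    filter_upwards [hE0] with z hz
    exact hz.symm
  have hval := tendsto_nhds_unique hlim hlim0
  simp only [E, A, B, D, hf0, sub_zero] at hval
  linear_combination hval / 4

theorem wp_addition {L : Submodule ℤ ℂ} (h : IsLat L) {z w : ℂ} (hz : z ∉ L) (hw : w ∉ L)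
    (hs : z + w ∉ L) (hd : z - w ∉ L) :
    4 * (wp L z - wp L w) ^ 2 * (wp L (z + w) + wp L z + wp L w) = (wpd L z - wpd L w) ^ 2 := by
  have e1 : z + w - z = w := by ring
  have hz' : z ∉ exc L (z + w) := by
    rintro (hc | hc | hc)
    · exact hz hc
    · have hc' : z + w - z ∈ L := hc
      rw [e1] at hc'
      exact hw hc'
    · have hc' : 2 * z - (z + w) ∈ L := hc
      apply hd
      have e2 : 2 * z - (z + w) = z - w := by ring
      rwa [e2] at hc'
  have hval := value_GG h hs (C := GG' L (z + w) z) fun u hu => const_GG h hs hu hz'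
  have hne := ne_of h hs hz'
  rw [e1] at hne
  rw [← hval]
  unfold GG'
  rw [e1]
  field_simp
  ring

end Pool.Agent.SS
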