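import Pool.Agent.Work.CM.Ext1
import Pool.Agent.Work.CM.Ext2
import Pool.Agent.Work.MP_a5099b_nt.E.Defs

/-!
# Module E/Fix (size M): the numbers fixed by all automorphisms over `t`

PROOF. `K = Subfield.closure {t}`; every `K`-algebra automorphism of `ℂ` fixes `t`, so it fixes `z`. `algebraic_of_finite`: `z` is algebraic over `K`.
Let `z'` be another root in `ℂ` of `minpoly K z` (if its degree is `> 1`; it is separable since `K` has characteristic `0`). There is an automorphism of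
`ℂ` over `K` with `z ↦ z'`: in the algebraic closure `Ω` of `K` (e.g. `algebraicClosure K ℂ`, normal over `K`) there is `σ : Ω ≃ₐ[K] Ω` with
`z ↦ z'` (`minpoly.algHom..`, `IsConjRoot`, `isConjRoot_iff_exists_algEquiv`), extended to `ℂ` by `exists_extension`. So `minpoly K z` has degree `1`, `z ∈ K`.
-/

set_option autoImplicit false

namespace Pool.Agent.SS

theorem fix_field {t z : ℂ} (hz : ∀ σ : ℂ ≃+* ℂ, σ t = t → σ z = z) :
    z ∈ Subfield.closure {t} := by
  set K : Subfield ℂ := Subfield.closure {t} with hK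
  have htK : t ∈ K := Subfield.subset_closure rfl
  have hfix : ∀ σ : ℂ ≃ₐ[K] ℂ, σ z = z := by
    intro σ
    apply hz σ.toRingEquiv
    exact σ.commutes ⟨t, htK⟩
  have halg : IsAlgebraic K z := by
    apply Pool.Agent.Work.CM.algebraic_of_finite
    apply (Set.finite_singleton z).subset
    rintro _ ⟨σ, rfl⟩
    exact hfix σ
  let Ω := algebraicClosure K ℂ
  have hclos : IsAlgClosure K Ω := inferInstance
  have hcl : IsAlgClosed Ω := hclos.isAlgClosed
  have hzΩ : z ∈ Ω := mem_algebraicClosure_iff.mpr halg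
  have hgal : IsGalois K Ω := ⟨⟩
  have hfixΩ : ∀ σ : Ω ≃ₐ[K] Ω, σ ⟨z, hzΩ⟩ = ⟨z, hzΩ⟩ := by
    intro σ
    obtain ⟨τ, hτ⟩ := Pool.Agent.Work.CM.exists_extension (Ω.val) σ
    have h1 := hτ ⟨z, hzΩ⟩
    apply Subtype.ext
    have h2 : τ z = z := hfix τ
    have h3 : (Ω.val ⟨z, hzΩ⟩ : ℂ) = z := rfl
    rw [h3, h2] at h1
    exact h1.symm
  have hbot := (InfiniteGalois.mem_bot_iff_fixed (k := K) (K := Ω) ⟨z, hzΩ⟩).mpr hfixΩ
  rw [IntermediateField.mem_bot] at hbot
  obtain ⟨k, hk⟩ := hbot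
  have h1 : ((algebraMap K Ω k : Ω) : ℂ) = z := congrArg Subtype.val hk
  have h2 : ((algebraMap K Ω k : Ω) : ℂ) = (k : ℂ) := rfl
  rw [← h1, h2]
  exact k.2

end Pool.Agent.SS
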