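import Pool.Agent.Work.CM.Bas2
import Pool.Agent.Work.CM.Inj
import Pool.Agent.Work.CM.Sur
import Pool.Agent.Work.MP_a5099b_nt.E.Defs

/-!
# Module E/Pt (size S-M): first properties of the map `ptL`

PROOF. `crvL_nonsing`: `crv_nonsing`, `IsLat.ode`; if `wpd z = 0`, `IsLat.nondeg` gives `6 wp² - g₂/2 ≠ 0`.
`ptL_neg`: `wp_neg`, `wpd_neg`, `Point.neg_some`, `negY x y = -y`. `ptL_add_mem`: `wp_add`, `wpd_add`.
`ptL_eq_or`: `IsLat.inj` and the two previous ones. `ptL_two`: `-ptL z = ptL z` means `wpd z = 0`, `IsLat.crit`, or `z ∈ L`.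
`ptL_surj`: `IsLat.surj` gives `z` with `wp z = x`, then `(wpd z/2)² = y²`, replace `z` by `-z` if necessary.
-/

set_option autoImplicit false

namespace Pool.Agent.SS

open Pool.Agent.Work.CM

variable {L : Submodule ℤ ℂ}

theorem crvL_nonsing (h : IsLat L) {z : ℂ} (hz : z ∉ L) :
    (crvL L).toAffine.Nonsingular (wp L z) (wpd L z / 2) := by
  unfold crvL
  rw [crv_nonsing]
  have ho := h.ode hz
  refine ⟨by linear_combination ho / 4, ?_⟩
  by_cases h0 : wpd L z = 0
  · left
    have h1 := h.nondeg hz h0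
    intro h2
    apply h1
    linear_combination 2 * h2
  · right
    intro h2
    apply h0
    linear_combination h2

theorem ptL_of_mem {z : ℂ} (hz : z ∈ L) : ptL L z = 0 := by
  unfold ptL
  rw [dif_neg (fun h => h.1 hz)]

theorem ptL_of_notMem (h : IsLat L) {z : ℂ} (hz : z ∉ L) :
    ptL L z = .some (wp L z) (wpd L z / 2) (crvL_nonsing h hz) := by
  unfold ptL
  rw [dif_pos ⟨hz, crvL_nonsing h hz⟩]

theorem ptL_eq_zero (h : IsLat L) (z : ℂ) : ptL L z = 0 ↔ z ∈ L := by
  constructor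
  · intro h0
    by_contra hz
    rw [ptL_of_notMem h hz] at h0
    exact WeierstrassCurve.Affine.Point.some_ne_zero _ h0
  · exact ptL_of_mem

theorem ptL_neg (h : IsLat L) (z : ℂ) : ptL L (-z) = -ptL L z := by
  by_cases hz : z ∈ L
  · rw [ptL_of_mem hz, ptL_of_mem (neg_mem hz), neg_zero]
  · have hz' : -z ∉ L := fun hc => hz (by simpa using neg_mem hc)
    rw [ptL_of_notMem h hz, ptL_of_notMem h hz', WeierstrassCurve.Affine.Point.neg_some,
      WeierstrassCurve.Affine.Point.some.injEq]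
    refine ⟨h.wp_neg z, ?_⟩
    rw [h.wpd_neg]
    simp only [WeierstrassCurve.Affine.negY, crvL, crv]
    ring

theorem ptL_add_mem (h : IsLat L) (z : ℂ) {u : ℂ} (hu : u ∈ L) : ptL L (z + u) = ptL L z := by
  by_cases hz : z ∈ L
  · rw [ptL_of_mem hz, ptL_of_mem (add_mem hz hu)]
  · have hz' : z + u ∉ L := fun hc => hz (by simpa using sub_mem hc hu)
    rw [ptL_of_notMem h hz, ptL_of_notMem h hz', WeierstrassCurve.Affine.Point.some.injEq]
    exact ⟨h.wp_add z hu, by rw [h.wpd_add z hu]⟩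

/-- Points with the same coordinate `x`. -/
theorem eq_or_neg {F : Type*} [Field F] {a b : F} {x y y' : F}
    (h : (crv a b).toAffine.Nonsingular x y) (h' : (crv a b).toAffine.Nonsingular x y') :
    (WeierstrassCurve.Affine.Point.some x y h : (crv a b).toAffine.Point) = .some x y' h' ∨
      (WeierstrassCurve.Affine.Point.some x y h : (crv a b).toAffine.Point) = -.some x y' h' :=
  WeierstrassCurve.Affine.Point.X_eq_iff.1 rfl

theorem ptL_two (h : IsLat L) {z : ℂ} (hz : -ptL L z = ptL L z) : 2 * z ∈ L := by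
  by_cases hm : z ∈ L
  · rw [two_mul]
    exact add_mem hm hm
  · apply h.crit hm
    rw [ptL_of_notMem h hm, WeierstrassCurve.Affine.Point.neg_some,
      WeierstrassCurve.Affine.Point.some.injEq] at hz
    have h2 := hz.2
    simp only [WeierstrassCurve.Affine.negY, crvL, crv] at h2
    linear_combination -h2

theorem ptL_surj (h : IsLat L) (P : (crvL L).toAffine.Point) : ∃ z, ptL L z = P := by
  rcases P with _ | ⟨x, y, hP⟩
  · exact ⟨0, ptL_of_mem (zero_mem L)⟩
  · obtain ⟨z, hz, rfl⟩ := h.surj x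
    rcases WeierstrassCurve.Affine.Point.X_eq_iff (h₁ := crvL_nonsing h hz) (h₂ := hP) |>.1 rfl with
      h1 | h1
    · exact ⟨z, by rw [ptL_of_notMem h hz, h1]⟩
    · exact ⟨-z, by rw [ptL_neg h, ptL_of_notMem h hz, h1, neg_neg]⟩

end Pool.Agent.SS
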