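import Pool.Agent.Work.MP_a5099b_nt.E.Add
import Pool.Agent.Work.MP_a5099b_nt.E.Pt

/-!
# Module E/Gen (size M): `ptL` is additive up to sign, generic case, then additive for very generic pairs

PROOF. `ptL_gen`: by `IsLat.inj` `wp z ≠ wp w`; `Point.add_of_X_ne`: the coordinate `x` of the sum is `m² - wp z - wp w`,
`m = (wpd z/2 - wpd w/2)/(wp z - wp w)` (`slope_of_X_ne`, `addX`), which is `wp (z + w)` by `wp_addition`. Then `eq_or_neg`.
`ptL_gen2`: suppose `P z + P w = -P (z + w)` (`P = ptL L`). If `2 (z + w) ∈ L` then `-P (z + w) = P (-(z+w)) = P (z + w)` (`ptL_neg`,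
`ptL_add_mem`) and we are done; assume not. `ptL_gen` for `(z + w, -w)` (`z + w + w ∉ L`): `P (z + w) - P w = ± P z`. With `+`:
`P (z + w) = P z + P w = -P (z + w)`, `ptL_two`: contradiction. With `-`: `P (z + w) = P w - P z`, so `P z + P w = P z - P w`, `P w = -P w`,
`2 w ∈ L`. In the same way with `(z + w, -z)` (`w + z + z ∉ L`): `2 z ∈ L`. Then `2 (z + w) ∈ L`: contradiction.
-/

set_option autoImplicit false

namespace Pool.Agent.SS

open Pool.Agent.Work.CM

variable {L : Submodule ℤ ℂ}

private theorem eq_or_of_x (h : IsLat L) {s x y : ℂ} (hs : s ∉ L)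
    (hn : (crvL L).toAffine.Nonsingular x y) (hx : x = wp L s) :
    (WeierstrassCurve.Affine.Point.some x y hn : (crvL L).toAffine.Point) = ptL L s ∨
      (WeierstrassCurve.Affine.Point.some x y hn : (crvL L).toAffine.Point) = -ptL L s := by
  subst hx
  rw [ptL_of_notMem h hs]
  exact eq_or_neg hn (crvL_nonsing h hs)

theorem ptL_gen (h : IsLat L) {z w : ℂ} (hz : z ∉ L) (hw : w ∉ L) (hs : z + w ∉ L)
    (hd : z - w ∉ L) :
    ptL L z + ptL L w = ptL L (z + w) ∨ ptL L z + ptL L w = -ptL L (z + w) := by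
  have hne : wp L z ≠ wp L w := by
    intro he
    rcases h.inj hz hw he with h1 | h1
    · exact hd h1
    · exact hs h1
  have hne' : wp L z - wp L w ≠ 0 := sub_ne_zero.2 hne
  rw [ptL_of_notMem h hz, ptL_of_notMem h hw, WeierstrassCurve.Affine.Point.add_of_X_ne hne]
  refine eq_or_of_x h hs _ ?_
  rw [WeierstrassCurve.Affine.slope_of_X_ne hne]
  unfold WeierstrassCurve.Affine.addX
  have ha1 : (crvL L).toAffine.a₁ = 0 := rfl
  have ha2 : (crvL L).toAffine.a₂ = 0 := rfl
  rw [ha1, ha2]
  have h2 := wp_addition h hz hw hs hd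
  have h3 : ((wpd L z / 2 - wpd L w / 2) / (wp L z - wp L w)) ^ 2 =
      wp L (z + w) + wp L z + wp L w := by
    rw [div_pow, div_eq_iff (pow_ne_zero 2 hne')]
    linear_combination -h2 / 4
  rw [h3]
  ring

private theorem alg {A : Type*} [AddCommGroup A] {a b c : A} (h3 : a + b = -c)
    (g1 : c + -b = a ∨ c + -b = -a) (g2 : c + -a = b ∨ c + -a = -b) :
    -c = c ∨ (-a = a ∧ -b = b) := by
  rcases g1 with g1 | g1
  · left
    rw [← h3, ← g1]
    abel
  · rcases g2 with g2 | g2
    · left
      rw [← h3, ← g2]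
      abel
    · right
      have e1 : c = b - a := by
        have : c = (c + -b) + b := by abel
        rw [this, g1]
        abel
      have e2 : c = a - b := by
        have : c = (c + -a) + a := by abel
        rw [this, g2]
        abel
      constructor
      · have e3 : a = (a + b) - b := by abel
        rw [h3, e2] at e3
        have e4 : -a = -(a - b) - b := by abel
        rw [e4]
        exact e3.symm
      · have e3 : b = (a + b) - a := by abel
        rw [h3, e1] at e3
        have e4 : -b = -(b - a) - a := by abel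
        rw [e4]
        exact e3.symm

theorem ptL_gen2 (h : IsLat L) {z w : ℂ} (hz : z ∉ L) (hw : w ∉ L) (hs : z + w ∉ L)
    (hd : z - w ∉ L) (h1 : z + 2 * w ∉ L) (h2 : 2 * z + w ∉ L) :
    ptL L z + ptL L w = ptL L (z + w) := by
  rcases ptL_gen h hz hw hs hd with h3 | h3
  · exact h3
  by_cases h4 : 2 * (z + w) ∈ L
  · rw [h3, ← ptL_neg h, ← ptL_add_mem h (-(z + w)) h4]
    congr 1
    ring
  · exfalso
    have hw' : -w ∉ L := fun h5 => hw (by simpa using L.neg_mem h5)
    have hz' : -z ∉ L := fun h5 => hz (by simpa using L.neg_mem h5)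
    have e1 : z + w + -w = z := by ring
    have e2 : z + w - -w = z + 2 * w := by ring
    have e3 : z + w + -z = w := by ring
    have e4 : z + w - -z = 2 * z + w := by ring
    have g1 := ptL_gen h hs hw' (by rw [e1]; exact hz) (by rw [e2]; exact h1)
    have g2 := ptL_gen h hs hz' (by rw [e3]; exact hw) (by rw [e4]; exact h2)
    rw [e1, ptL_neg h] at g1
    rw [e3, ptL_neg h] at g2
    rcases alg h3 g1 g2 with g3 | ⟨g3, g4⟩
    · exact h4 (ptL_two h g3)
    · apply h4
      rw [mul_add]
      exact L.add_mem (ptL_two h g3) (ptL_two h g4)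

end Pool.Agent.SS
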