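import Pool.Agent.Work.MP_a5099b_nt.E.Gen

/-!
# Module E/Hom (size M): the group homomorphism from the complex numbers to the curve

PROOF. If `z ∈ L`, `w ∈ L` or `z + w ∈ L` use `ptL_of_mem`, `ptL_add_mem`, `ptL_neg` (`z + w = u ∈ L`: `P w = P (-z + u) = -P z`). Otherwise
choose `u` outside a countable set (`IsLat.countable`; preimages of `L` under the maps `u ↦ a u + c`, `a ≠ 0`, are countable) such that the three pairs
`(z + u, w - u)`, `(z, u)`, `(w, -u)` satisfy the hypotheses of `ptL_gen2`. Conditions on `u`: `z + u, w - u, u ∉ L`,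
`z + u - (w - u) = z - w + 2u`, `z + u + 2 (w - u) = z + 2 w - u`, `2 (z + u) + w - u = 2 z + w + u`; `z - u`, `z + 2u`, `2 z + u`; `w + u`, `w - 2 u`, `2 w - u` not in `L`
(and `z + w ∉ L`). Then `P (z + w) = P (z + u) + P (w - u) = P z + P u + P w + P (-u) = P z + P w`.
-/

set_option autoImplicit false

namespace Pool.Agent.SS

open Pool.Agent.Work.CM

variable {L : Submodule ℤ ℂ}

private theorem exists_u (h : IsLat L) (l : List (ℂ × ℂ)) (hl : ∀ p ∈ l, p.1 ≠ 0) :
    ∃ u : ℂ, ∀ p ∈ l, p.1 * u + p.2 ∉ L := by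
  have hc : (⋃ p ∈ {p | p ∈ l}, {u : ℂ | p.1 * u + p.2 ∈ L}).Countable := by
    refine Set.Countable.biUnion (List.finite_toSet l).countable ?_
    intro p hp
    refine Set.Countable.preimage_of_injOn (f := fun u : ℂ => p.1 * u + p.2) h.countable ?_
    intro x _ y _ hxy
    exact mul_left_cancel₀ (hl p hp) (add_right_cancel hxy)
  obtain ⟨u, hu⟩ := (hc.dense_compl ℝ).nonempty
  refine ⟨u, fun p hp hm => hu ?_⟩
  exact Set.mem_biUnion (show p ∈ {p | p ∈ l} from hp) hm

private theorem add_of_mem (h : IsLat L) (z w : ℂ) (hw : w ∈ L) :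
    ptL L (z + w) = ptL L z + ptL L w := by
  rw [ptL_add_mem h z hw, ptL_of_mem hw, add_zero]

theorem ptL_add (h : IsLat L) (z w : ℂ) : ptL L (z + w) = ptL L z + ptL L w := by
  by_cases hw : w ∈ L
  · exact add_of_mem h z w hw
  by_cases hz : z ∈ L
  · rw [add_comm, add_of_mem h w z hz, add_comm]
  by_cases hs : z + w ∈ L
  · rw [ptL_of_mem hs]
    have e : w = -z + (z + w) := by ring
    conv_rhs => rw [e]
    rw [ptL_add_mem h _ hs, ptL_neg h, add_neg_cancel]
  obtain ⟨u, hu⟩ := exists_u h [(1, z), (-1, w), (1, 0), (2, z - w), (-1, z + 2 * w),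
    (1, 2 * z + w), (-1, z), (2, z), (1, 2 * z), (1, w), (-2, w), (-1, 2 * w)] (by
      intro p hp
      simp only [List.mem_cons, List.not_mem_nil, or_false] at hp
      rcases hp with rfl | rfl | rfl | rfl | rfl | rfl | rfl | rfl | rfl | rfl | rfl | rfl <;>
        norm_num)
  simp only [List.mem_cons, List.not_mem_nil, or_false, forall_eq_or_imp, forall_eq] at hu
  obtain ⟨u1, u2, u3, u4, u5, u6, u7, u8, u9, u10, u11, u12⟩ := hu
  have T : ∀ {x y : ℂ}, x ∉ L → y = x → y ∉ L := fun hx e => e ▸ hx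
  have c1 : z + u ∉ L := T u1 (by ring)
  have c2 : w - u ∉ L := T u2 (by ring)
  have c3 : u ∉ L := T u3 (by ring)
  have c3' : -u ∉ L := fun h5 => c3 (by simpa using L.neg_mem h5)
  have f1 : ptL L (z + u) + ptL L (w - u) = ptL L (z + w) := by
    have e : z + w = (z + u) + (w - u) := by ring
    have g := ptL_gen2 h c1 c2 (by rw [← e]; exact hs) (T u4 (by ring))
      (T u5 (by ring)) (T u6 (by ring))
    rw [g, ← e]
  have f2 : ptL L z + ptL L u = ptL L (z + u) :=
    ptL_gen2 h hz c3 c1 (T u7 (by ring)) (T u8 (by ring))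
      (T u9 (by ring))
  have f3 : ptL L w + ptL L (-u) = ptL L (w + -u) :=
    ptL_gen2 h hw c3' (T c2 (by ring)) (T u10 (by ring))
      (T u11 (by ring)) (T u12 (by ring))
  rw [← f1, ← f2, sub_eq_add_neg, ← f3, ptL_neg h]
  abel

theorem ptL_nsmul (h : IsLat L) (n : ℕ) (z : ℂ) : ptL L (n * z) = n • ptL L z := by
  induction n with
  | zero =>
    rw [Nat.cast_zero, zero_mul, zero_nsmul, ptL_of_mem L.zero_mem]
  | succ n ih =>
    have e : ((n + 1 : ℕ) : ℂ) * z = n * z + z := by push_cast; ring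
    rw [e, ptL_add h, ih, succ_nsmul]

end Pool.Agent.SS
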