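import Pool.Agent.Work.MP_a5099b_nt.E.Defs

/-!
# Module E/KrAdd (size M-L): the kernel of reduction is a group, with parameter `-x/y`

PROOF. `m` = the nonunits of `O` (`ValuationSubring.nonunits`, `mem_nonunits_iff_exists_mem_maximalIdeal`, `inv_mem_nonunits_iff`: `x ∉ O ↔ x⁻¹ ∈ m` for
`x ≠ 0`). Cases `P = 0` or `Q = 0` or `P + Q = 0` are clear (`u = 0`). Let `P = (x1, y1)`, `Q = (x2, y2)`, `x1, x2 ∉ O`, `z_i = -x_i/y_i`,
`w_i = -1/y_i`. Facts: `x_i⁻¹ ∈ m`, `y_i² = x_i³ (1 + a/x_i² + b/x_i³)`, so `y_i ≠ 0`, `z_i² = x_i⁻¹ (1 + ..)⁻¹ ∈ m`, `z_i ∈ m` (a square of a non-element of `m` is not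
in `m`), `w_i = z_i x_i⁻¹ ∈ m`, `w_i = z_i³ + a z_i w_i² + b w_i³`. Let `s` be the slope, `r = y1 - s x1`; `y_i = s x_i + r`, so `s z_i + r w_i = -1`.
`D = 1 - a z1 (w1 + w2) - b (w1² + w1 w2 + w2²)` (a unit of `O`, in `1 + m`), `N = z1² + z1 z2 + z2² + a w2² ∈ m`.
Claim `s D + r N = 0`: (i) `(w2 - w1) D = (z2 - z1) N` (ring identity from the equations of the curve); if `z1 ≠ z2` use
`s (z2 - z1) + r (w2 - w1) = 0`. (ii) if `z1 = z2` then `w1 = w2`, `P = Q`, `s = (3 x² + a)/(2 y)` (`2 y ≠ 0` as `P + Q ≠ 0`), direct computation with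
`y² = x³ + a x + b`: `D = 1 - (2 a x + 3 b)/y²`, `N = (3 x² + a)/y²`, `s D + (y - s x) N = s (1 - 3) + 2 s = 0`.
So `r ≠ 0` (else `s = 0`, contradiction with `s z1 + r w1 = -1`), and `e := -s/r = N/D ∈ m`, `n := -1/r = w1 - e z1 = z1 (x1⁻¹ - e)`.
The third point of the line: `x3 = s² - x1 - x2`, `y3 = s x3 + r`, `P + Q = (x3, -y3)`. By Vieta (`x1 x2 + x1 x3 + x2 x3 = a - 2 s r`, `x1 x2 x3 = r² - b`; for
`x1 ≠ x2` and for the tangent; or verify the final identities directly) `y1 y2 y3 = r³ + a s² r - b s³ = r³ (1 + a e² + b e³) ≠ 0`, so `y3 ≠ 0`, and with `z3 = -x3/y3`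
`z1 + z2 + z3 = -(2 a e n + 3 b e² n)/(1 + a e² + b e³)`. So `zc (P + Q) = -z3 = z1 + z2 + u z1`, `u = (x1⁻¹ - e)(2 a e + 3 b e²)/(1 + a e² + b e³) ∈ m`.
Finally `z3 ∈ m`, `w3 = -1/y3 = e z3 + n ∈ m`, so `y3 ∉ O`, and `x3 ∈ O` would give `y3² ∈ O`, `y3 ∈ O`. So `x3 ∉ O`.
-/

set_option autoImplicit false

namespace Pool.Agent.SS

section aux

variable {F : Type*} [Field F]

private theorem nu_mul {O : ValuationSubring F} {x y : F} (hx : x ∈ O) (hy : y ∈ O.nonunits) :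
    x * y ∈ O.nonunits := by
  rw [ValuationSubring.mem_nonunits_iff] at hy ⊢
  have h1 := (O.valuation_le_one_iff x).2 hx
  rw [map_mul]
  calc O.valuation x * O.valuation y ≤ 1 * O.valuation y := by gcongr
    _ = O.valuation y := one_mul _
    _ < 1 := hy

private theorem nu_mem {O : ValuationSubring F} {x : F} (hx : x ∈ O.nonunits) : x ∈ O :=
  ValuationSubring.nonunits_subset hx

private theorem nu_one_add {O : ValuationSubring F} {x : F} (hx : x ∈ O.nonunits) :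
    1 + x ≠ 0 ∧ (1 + x)⁻¹ ∈ O := by
  rw [ValuationSubring.mem_nonunits_iff] at hx
  have h1 : O.valuation (1 + x) = 1 := by
    have := Valuation.map_one_add_of_lt (v := O.valuation) hx
    exact this
  constructor
  · intro h
    rw [h, map_zero] at h1
    exact zero_ne_one h1
  · rw [← O.valuation_le_one_iff, map_inv₀, h1, inv_one]

private theorem nu_sq {O : ValuationSubring F} {x : F} (hx : x ^ 2 ∈ O.nonunits) :
    x ∈ O.nonunits := by
  rw [ValuationSubring.mem_nonunits_iff, map_pow] at hx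
  rw [ValuationSubring.mem_nonunits_iff]
  by_contra h
  exact absurd hx (not_lt.2 (one_le_pow₀ (not_lt.1 h)))

private theorem id1 {a b s r x1 x2 : F}
    (hV : x1 ^ 2 + x1 * x2 + x2 ^ 2 + a - s ^ 2 * (x1 + x2) - 2 * s * r = 0)
    (h1 : (s * x1 + r) ^ 2 = x1 ^ 3 + a * x1 + b) :
    s * ((s * x1 + r) ^ 2 * (s * x2 + r) ^ 2 -
      a * x1 * (s * x2 + r) * ((s * x1 + r) + (s * x2 + r)) -
      b * ((s * x1 + r) ^ 2 + (s * x1 + r) * (s * x2 + r) + (s * x2 + r) ^ 2)) +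
      r * (x1 ^ 2 * (s * x2 + r) ^ 2 + x1 * x2 * (s * x1 + r) * (s * x2 + r) +
        x2 ^ 2 * (s * x1 + r) ^ 2 + a * (s * x1 + r) ^ 2) = 0 := by
  obtain rfl : a = s ^ 2 * (x1 + x2) + 2 * s * r - (x1 ^ 2 + x1 * x2 + x2 ^ 2) := by
    linear_combination hV
  obtain rfl : b = (s * x1 + r) ^ 2 - x1 ^ 3 -
      (s ^ 2 * (x1 + x2) + 2 * s * r - (x1 ^ 2 + x1 * x2 + x2 ^ 2)) * x1 := by
    linear_combination -h1
  ring

private theorem id2 {a b s r x1 x2 : F}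
    (hV : x1 ^ 2 + x1 * x2 + x2 ^ 2 + a - s ^ 2 * (x1 + x2) - 2 * s * r = 0)
    (h1 : (s * x1 + r) ^ 2 = x1 ^ 3 + a * x1 + b) :
    (s * x1 + r) * (s * x2 + r) * (s * (s ^ 2 - x1 - x2) + r) =
      r ^ 3 + a * r * s ^ 2 - b * s ^ 3 := by
  obtain rfl : a = s ^ 2 * (x1 + x2) + 2 * s * r - (x1 ^ 2 + x1 * x2 + x2 ^ 2) := by
    linear_combination hV
  obtain rfl : b = (s * x1 + r) ^ 2 - x1 ^ 3 -
      (s ^ 2 * (x1 + x2) + 2 * s * r - (x1 ^ 2 + x1 * x2 + x2 ^ 2)) * x1 := by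
    linear_combination -h1
  ring

private theorem id3 {a b s r x1 x2 : F}
    (hV : x1 ^ 2 + x1 * x2 + x2 ^ 2 + a - s ^ 2 * (x1 + x2) - 2 * s * r = 0)
    (h1 : (s * x1 + r) ^ 2 = x1 ^ 3 + a * x1 + b) :
    x1 * (s * x2 + r) * (s * (s ^ 2 - x1 - x2) + r) +
      x2 * (s * x1 + r) * (s * (s ^ 2 - x1 - x2) + r) +
      (s ^ 2 - x1 - x2) * (s * x1 + r) * (s * x2 + r) = 2 * a * s * r - 3 * b * s ^ 2 := by
  obtain rfl : a = s ^ 2 * (x1 + x2) + 2 * s * r - (x1 ^ 2 + x1 * x2 + x2 ^ 2) := by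
    linear_combination hV
  obtain rfl : b = (s * x1 + r) ^ 2 - x1 ^ 3 -
      (s ^ 2 * (x1 + x2) + 2 * s * r - (x1 ^ 2 + x1 * x2 + x2 ^ 2)) * x1 := by
    linear_combination -h1
  ring

private theorem id4 {a b s r x1 x2 : F}
    (hV : x1 ^ 2 + x1 * x2 + x2 ^ 2 + a - s ^ 2 * (x1 + x2) - 2 * s * r = 0)
    (h1 : (s * x1 + r) ^ 2 = x1 ^ 3 + a * x1 + b) :
    (s * (s ^ 2 - x1 - x2) + r) ^ 2 = (s ^ 2 - x1 - x2) ^ 3 + a * (s ^ 2 - x1 - x2) + b := by
  obtain rfl : a = s ^ 2 * (x1 + x2) + 2 * s * r - (x1 ^ 2 + x1 * x2 + x2 ^ 2) := by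
    linear_combination hV
  obtain rfl : b = (s * x1 + r) ^ 2 - x1 ^ 3 -
      (s ^ 2 * (x1 + x2) + 2 * s * r - (x1 ^ 2 + x1 * x2 + x2 ^ 2)) * x1 := by
    linear_combination -h1
  ring

/-- The local parameters at a point near `0`. -/
private theorem loc {O : ValuationSubring F} {a b x y : F} (ha : a ∈ O) (hb : b ∈ O)
    (hx : x ∉ O) (h : y ^ 2 = x ^ 3 + a * x + b) :
    x ≠ 0 ∧ y ≠ 0 ∧ x⁻¹ ∈ O.nonunits ∧ x / y ∈ O.nonunits ∧ y⁻¹ ∈ O.nonunits := by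
  have hx0 : x ≠ 0 := fun h0 => hx (h0 ▸ O.zero_mem)
  have hxi : x⁻¹ ∈ O.nonunits := (O.inv_mem_nonunits_iff).2 (Or.inr hx)
  have he : a * x⁻¹ ^ 2 + b * x⁻¹ ^ 3 ∈ O.nonunits := by
    refine add_mem (nu_mul ha ?_) (nu_mul hb ?_)
    · rw [pow_two]; exact mul_mem hxi hxi
    · rw [pow_succ, pow_two]; exact mul_mem (mul_mem hxi hxi) hxi
  obtain ⟨h1, h2⟩ := nu_one_add he
  have hy2 : y ^ 2 = x ^ 3 * (1 + (a * x⁻¹ ^ 2 + b * x⁻¹ ^ 3)) := by
    rw [h]; field_simp; ring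
  have hy0 : y ≠ 0 := by
    rintro rfl
    have : x ^ 3 * (1 + (a * x⁻¹ ^ 2 + b * x⁻¹ ^ 3)) = 0 := by rw [← hy2]; ring
    rcases mul_eq_zero.1 this with h3 | h3
    · exact hx0 (pow_eq_zero_iff (by norm_num) |>.1 h3)
    · exact h1 h3
  have hz : x / y ∈ O.nonunits := by
    apply nu_sq
    have : (x / y) ^ 2 = (1 + (a * x⁻¹ ^ 2 + b * x⁻¹ ^ 3))⁻¹ * x⁻¹ := by
      rw [div_pow, hy2]
      field_simp
    rw [this]
    exact nu_mul h2 hxi
  refine ⟨hx0, hy0, hxi, hz, ?_⟩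
  have : y⁻¹ = (x / y) * x⁻¹ := by field_simp
  rw [this]
  exact mul_mem hz hxi

private theorem core {O : ValuationSubring F} {a b s r x1 x2 : F} (ha : a ∈ O) (hb : b ∈ O)
    (hx1 : x1 ∉ O) (hx2 : x2 ∉ O)
    (hV : x1 ^ 2 + x1 * x2 + x2 ^ 2 + a - s ^ 2 * (x1 + x2) - 2 * s * r = 0)
    (h1 : (s * x1 + r) ^ 2 = x1 ^ 3 + a * x1 + b)
    (h2 : (s * x2 + r) ^ 2 = x2 ^ 3 + a * x2 + b) :
    s ^ 2 - x1 - x2 ∉ O ∧ ∃ u ∈ O.nonunits,
      (s ^ 2 - x1 - x2) / (s * (s ^ 2 - x1 - x2) + r) =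
        -x1 / (s * x1 + r) + -x2 / (s * x2 + r) + u * (-x1 / (s * x1 + r)) := by
  have i1 := id1 hV h1
  have i2 := id2 hV h1
  have i3 := id3 hV h1
  have i4 := id4 hV h1
  obtain ⟨hx10, hy10, hx1i, hz1, hw1⟩ := loc ha hb hx1 h1
  obtain ⟨hx20, hy20, hx2i, hz2, hw2⟩ := loc ha hb hx2 h2
  set y1 := s * x1 + r with hy1
  set y2 := s * x2 + r with hy2
  set x3 := s ^ 2 - x1 - x2 with hx3
  set y3 := s * x3 + r with hy3
  set z1 := x1 / y1 with hz1d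
  set z2 := x2 / y2 with hz2d
  -- the factors
  set D := 1 + -(a * (z1 * (y1⁻¹ + y2⁻¹)) + b * (y1⁻¹ ^ 2 + y1⁻¹ * y2⁻¹ + y2⁻¹ ^ 2)) with hD
  set N := z1 ^ 2 + z1 * z2 + z2 ^ 2 + a * y2⁻¹ ^ 2 with hN
  have hsq : ∀ {t : F}, t ∈ O.nonunits → t ^ 2 ∈ O.nonunits := fun ht => by
    rw [pow_two]; exact mul_mem ht ht
  have hd : -(a * (z1 * (y1⁻¹ + y2⁻¹)) + b * (y1⁻¹ ^ 2 + y1⁻¹ * y2⁻¹ + y2⁻¹ ^ 2)) ∈
      O.nonunits := by
    refine neg_mem (add_mem (nu_mul ha (mul_mem hz1 (add_mem hw1 hw2))) (nu_mul hb ?_))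
    exact add_mem (add_mem (hsq hw1) (mul_mem hw1 hw2)) (hsq hw2)
  obtain ⟨hD0, hDi⟩ := nu_one_add hd
  have hNm : N ∈ O.nonunits :=
    add_mem (add_mem (add_mem (hsq hz1) (mul_mem hz1 hz2)) (hsq hz2)) (nu_mul ha (hsq hw2))
  have hc : s * D + r * N = 0 := by
    have e : s * D + r * N = (s * (y1 ^ 2 * y2 ^ 2 - a * x1 * y2 * (y1 + y2) -
      b * (y1 ^ 2 + y1 * y2 + y2 ^ 2)) + r * (x1 ^ 2 * y2 ^ 2 + x1 * x2 * y1 * y2 +
        x2 ^ 2 * y1 ^ 2 + a * y1 ^ 2)) / (y1 ^ 2 * y2 ^ 2) := by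
      rw [hD, hN, hz1d, hz2d]
      field_simp
      ring
    rw [e, i1, zero_div]
  have hr : r ≠ 0 := by
    intro hr0
    rw [hr0, zero_mul, add_zero] at hc
    have hs : s = 0 := (mul_eq_zero.1 hc).resolve_right hD0
    exact hy10 (by rw [hy1, hs, hr0]; ring)
  set e := D⁻¹ * N with he
  have hem : e ∈ O.nonunits := nu_mul hDi hNm
  have hs : s = -e * r := by
    have hDD : D ≠ 0 := hD0
    rw [he]
    field_simp
    linear_combination hc
  have hf : a * e ^ 2 + b * e ^ 3 ∈ O.nonunits := by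
    refine add_mem (nu_mul ha (hsq hem)) (nu_mul hb ?_)
    rw [pow_succ]
    exact mul_mem (hsq hem) hem
  obtain ⟨hf0, hfi⟩ := nu_one_add hf
  have hprod : y1 * y2 * y3 = r ^ 3 * (1 + (a * e ^ 2 + b * e ^ 3)) := by
    rw [i2, hs]; ring
  have hy30 : y3 ≠ 0 := by
    intro h0
    rw [h0, mul_zero] at hprod
    exact mul_ne_zero (pow_ne_zero 3 hr) hf0 hprod.symm
  -- `-1 / r`
  have hn : -r⁻¹ = -y1⁻¹ + e * z1 := by
    rw [hz1d]
    field_simp
    rw [hy1]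
    rw [hs]
    ring
  have hn' : -r⁻¹ = -((x1⁻¹ - e) * z1) := by
    rw [hn, hz1d]
    field_simp
    ring
  have hsum : x3 / y3 = -z1 + -z2 + (2 * a * e + 3 * b * e ^ 2) *
      (1 + (a * e ^ 2 + b * e ^ 3))⁻¹ * (-r⁻¹) := by
    have e1 : x3 / y3 + z1 + z2 = (2 * a * s * r - 3 * b * s ^ 2) / (y1 * y2 * y3) := by
      rw [← i3, hz1d, hz2d]
      field_simp
      ring
    have e2 : (2 * a * s * r - 3 * b * s ^ 2) / (y1 * y2 * y3) =
        (2 * a * e + 3 * b * e ^ 2) * (1 + (a * e ^ 2 + b * e ^ 3))⁻¹ * (-r⁻¹) := by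
      rw [hprod, hs]
      field_simp
      ring
    linear_combination e1 + e2
  have hum : (x1⁻¹ - e) * ((2 * a * e + 3 * b * e ^ 2) * (1 + (a * e ^ 2 + b * e ^ 3))⁻¹) ∈
      O.nonunits := by
    have h3 : (2 * a * e + 3 * b * e ^ 2) ∈ O := by
      have heO := nu_mem hem
      refine add_mem (mul_mem (mul_mem ?_ ha) heO) (mul_mem (mul_mem ?_ hb) (pow_mem heO 2))
      · exact_mod_cast natCast_mem O 2
      · exact_mod_cast natCast_mem O 3
    rw [mul_comm]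
    exact nu_mul (mul_mem h3 hfi) (sub_mem hx1i hem)
  have hres : x3 / y3 = -x1 / y1 + -x2 / y2 +
      ((x1⁻¹ - e) * ((2 * a * e + 3 * b * e ^ 2) * (1 + (a * e ^ 2 + b * e ^ 3))⁻¹)) *
        (-x1 / y1) := by
    rw [hsum, hn', neg_div, neg_div]
    ring
  refine ⟨?_, _, hum, hres⟩
  -- `x3` is not in `O`
  have hz3 : x3 / y3 ∈ O.nonunits := by
    rw [hres, neg_div, neg_div]
    exact add_mem (add_mem (neg_mem hz1) (neg_mem hz2)) (mul_mem hum (neg_mem hz1))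
  have hri : -r⁻¹ ∈ O.nonunits := by
    rw [hn]
    exact add_mem (neg_mem hw1) (mul_mem hem hz1)
  have hw3 : y3⁻¹ ∈ O.nonunits := by
    have : y3⁻¹ = -(-r⁻¹) + e * (x3 / y3) := by
      field_simp
      rw [hy3, hs]
      ring
    rw [this]
    exact add_mem (neg_mem hri) (mul_mem hem hz3)
  intro hx3O
  have hy3O : y3 ∉ O := by
    rcases (O.inv_mem_nonunits_iff).1 hw3 with h0 | h0
    · exact absurd h0 hy30
    · exact h0
  apply hy3O
  have h5 : y3 ^ 2 ∈ O := by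
    rw [i4]
    exact add_mem (add_mem (pow_mem hx3O 3) (mul_mem ha hx3O)) hb
  rw [← O.valuation_le_one_iff] at h5 ⊢
  rw [map_pow] at h5
  by_contra h6
  exact absurd h5 (not_le.2 (one_lt_pow₀ (not_le.1 h6) (by norm_num)))

end aux

theorem kr_add {F : Type*} [Field F] [DecidableEq F] (O : ValuationSubring F) {a b : F}
    (ha : a ∈ O) (hb : b ∈ O) {P Q : (crv a b).toAffine.Point} (hP : inG O P) (hQ : inG O Q) :
    inG O (P + Q) ∧ ∃ u ∈ O.nonunits, zc (P + Q) = zc P + zc Q + u * zc P := by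
  have hzero : inG O (0 : (crv a b).toAffine.Point) := trivial
  have hz0 : zc (0 : (crv a b).toAffine.Point) = 0 := rfl
  have h0m : (0 : F) ∈ O.nonunits := zero_mem _
  rcases P with _ | ⟨x1, y1, hn1⟩
  · have e : (WeierstrassCurve.Affine.Point.zero : (crv a b).toAffine.Point) = 0 := rfl
    rw [e, zero_add]
    exact ⟨hQ, 0, h0m, by rw [hz0]; ring⟩
  rcases Q with _ | ⟨x2, y2, hn2⟩
  · have e : (WeierstrassCurve.Affine.Point.zero : (crv a b).toAffine.Point) = 0 := rfl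
    rw [e, add_zero]
    exact ⟨hP, 0, h0m, by rw [hz0]; ring⟩
  have hx1 : x1 ∉ O := hP
  have hx2 : x2 ∉ O := hQ
  have e1 : y1 ^ 2 = x1 ^ 3 + a * x1 + b := (crv_nonsing x1 y1).1 hn1 |>.1
  have e2 : y2 ^ 2 = x2 ^ 3 + a * x2 + b := (crv_nonsing x2 y2).1 hn2 |>.1
  have hneg : ∀ x y : F, (crv a b).toAffine.negY x y = -y := fun x y => by
    simp [WeierstrassCurve.Affine.negY, crv]
  by_cases hxy : x1 = x2 ∧ y1 = (crv a b).toAffine.negY x2 y2
  · rw [WeierstrassCurve.Affine.Point.add_of_Y_eq hxy.1 hxy.2]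
    refine ⟨hzero, 0, h0m, ?_⟩
    rw [hz0]
    obtain ⟨h3, h4⟩ := hxy
    rw [hneg] at h4
    subst h3 h4
    simp only [zc]
    rw [div_neg]
    ring
  · rw [WeierstrassCurve.Affine.Point.add_some hxy]
    set s := (crv a b).toAffine.slope x1 x2 y1 y2 with hs
    have hX : (crv a b).toAffine.addX x1 x2 s = s ^ 2 - x1 - x2 := by
      simp [WeierstrassCurve.Affine.addX, crv]
    have hY : (crv a b).toAffine.addY x1 x2 y1 s = -(s * (s ^ 2 - x1 - x2) + (y1 - s * x1)) := by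
      rw [WeierstrassCurve.Affine.addY, hneg, WeierstrassCurve.Affine.negAddY, hX]
      ring
    have hl2 : y2 = s * x2 + (y1 - s * x1) ∧
        x1 ^ 2 + x1 * x2 + x2 ^ 2 + a - s ^ 2 * (x1 + x2) - 2 * s * (y1 - s * x1) = 0 := by
      by_cases hx : x1 = x2
      · have hy : y1 ≠ (crv a b).toAffine.negY x2 y2 := fun h => hxy ⟨hx, h⟩
        have hyy : y1 = y2 := by
          rw [hneg] at hy
          have : (y1 - y2) * (y1 + y2) = 0 := by
            have e3 : y1 ^ 2 = y2 ^ 2 := by rw [e1, e2, hx]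
            linear_combination e3
          rcases mul_eq_zero.1 this with h | h
          · exact sub_eq_zero.1 h
          · exact absurd (eq_neg_of_add_eq_zero_left h) hy
        have hsl := WeierstrassCurve.Affine.slope_of_Y_ne (W := (crv a b).toAffine) hx hy
        rw [← hs] at hsl
        subst hx hyy
        have h2y : y1 - (crv a b).toAffine.negY x1 y1 ≠ 0 := sub_ne_zero.2 hy
        rw [eq_div_iff h2y] at hsl
        rw [hneg] at hsl
        simp only [crv] at hsl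
        refine ⟨by ring, ?_⟩
        linear_combination -hsl
      · have hsl := WeierstrassCurve.Affine.slope_of_X_ne (W := (crv a b).toAffine) (y₁ := y1) (y₂ := y2) hx
        rw [← hs] at hsl
        have hd : x1 - x2 ≠ 0 := sub_ne_zero.2 hx
        rw [eq_div_iff hd] at hsl
        refine ⟨by linear_combination hsl, ?_⟩
        have : (x1 - x2) * (x1 ^ 2 + x1 * x2 + x2 ^ 2 + a - s ^ 2 * (x1 + x2) -
            2 * s * (y1 - s * x1)) = 0 := by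
          linear_combination -e1 + e2 + (s * (x1 - x2) - y1 - y2) * hsl
        exact (mul_eq_zero.1 this).resolve_left hd
    obtain ⟨hl2, hV⟩ := hl2
    have hl1 : y1 = s * x1 + (y1 - s * x1) := by ring
    set r := y1 - s * x1 with hr
    have hc := core ha hb hx1 hx2 hV (by rw [← hl1]; exact e1) (by rw [← hl2]; exact e2)
    rw [← hl1, ← hl2] at hc
    refine ⟨?_, ?_⟩
    · change (crv a b).toAffine.addX x1 x2 s ∉ O
      rw [hX]
      exact hc.1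
    · obtain ⟨u, hu, hue⟩ := hc.2
      refine ⟨u, hu, ?_⟩
      simp only [zc]
      rw [hX, hY, neg_div_neg_eq]
      exact hue

end Pool.Agent.SS
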