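import Pool.Agent.Work.MP_a5099b_nt.E.Defs

/-!
# Module E/Map (size S-M): automorphisms act on the points

PROOF. `crv a b` is the base change of a curve `W0` over the subfield `K0 = {z | σ z = z}` (`RingHom.eqLocusField`), `σ` is a
`K0`-algebra homomorphism, `WeierstrassCurve.Affine.Point.map` (and `map_some`). Or directly: define `f` by cases and check additivity with
`Point.add_some`, `slope` (map of the slope: `WeierstrassCurve.Affine.map_slope`).
-/

set_option autoImplicit false

namespace Pool.Agent.SS

private theorem crv_aut_aux {F : Type*} [Field F] [DecidableEq F] {K : Subfield F}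
    (W0 : WeierstrassCurve K) (σ : F →ₐ[K] F) (W : WeierstrassCurve F)
    (hW : W0.baseChange F = W) :
    ∃ f : W.toAffine.Point →+ W.toAffine.Point,
      ∀ (x y : F) (hn : W.toAffine.Nonsingular x y),
        ∃ hn' : W.toAffine.Nonsingular (σ x) (σ y),
          f (.some x y hn) = .some (σ x) (σ y) hn' := by
  subst hW
  refine ⟨WeierstrassCurve.Affine.Point.map (W' := W0) σ, fun x y hn => ?_⟩
  exact ⟨_, WeierstrassCurve.Affine.Point.map_some (W' := W0) σ hn⟩

theorem crv_aut {F : Type*} [Field F] [DecidableEq F] {a b : F} (σ : F ≃+* F) (ha : σ a = a)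
    (hb : σ b = b) :
    ∃ f : (crv a b).toAffine.Point →+ (crv a b).toAffine.Point,
      ∀ (x y : F) (hn : (crv a b).toAffine.Nonsingular x y),
        ∃ hn' : (crv a b).toAffine.Nonsingular (σ x) (σ y),
          f (.some x y hn) = .some (σ x) (σ y) hn' := by
  let K : Subfield F := RingHom.eqLocusField (σ : F →+* F) (RingHom.id F)
  have hK : ∀ z : K, σ (z : F) = z := fun z => z.2
  let s : F →ₐ[K] F := AlgHom.mk (σ : F →+* F) (fun z => hK z)
  let a0 : K := ⟨a, ha⟩
  let b0 : K := ⟨b, hb⟩
  have hW : (crv a0 b0).baseChange F = crv a b := by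
    ext <;> simp [crv, WeierstrassCurve.baseChange, WeierstrassCurve.map] <;> rfl
  exact crv_aut_aux (crv a0 b0) s (crv a b) hW

end Pool.Agent.SS
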