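import Pool.Agent.Work.CM.Rep
import Pool.Agent.Work.CM.Hom
import Pool.Agent.Work.MP_a5099b_nt.E.Hom
import Pool.Agent.Work.MP_a5099b_nt.E.Map

/-!
# Module E/Tor (size M): the coordinates of the torsion points

PROOF. `xtor_iff`: `ptL_nsmul`, `ptL_eq_zero`, `ptL_of_notMem`, `ptL_surj`. `xtor_finite`: `exists_reps` for `L ≤ (l⁻¹) • L` (`IsLat.smul`,
`mem_smul_iff`) gives a finite set `T`; every element of `xtor l L` is `wp L t`, `t ∈ T` (`wp_add`). `xtor_conj`: `xtor_iff` and `crv_aut`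
(`σ (-(g₂)/4) = -(g₂)/4`).
-/

set_option autoImplicit false

namespace Pool.Agent.SS

open Pool.Agent.Work.CM
open scoped Pointwise

variable {L : Submodule ℤ ℂ}

theorem xtor_iff (h : IsLat L) (l : ℕ) (x : ℂ) :
    x ∈ xtor l L ↔ ∃ (y : ℂ) (hn : (crvL L).toAffine.Nonsingular x y),
      l • (WeierstrassCurve.Affine.Point.some x y hn : (crvL L).toAffine.Point) = 0 := by
  constructor
  · rintro ⟨z, hz, hlz, rfl⟩
    refine ⟨wpd L z / 2, crvL_nonsing h hz, ?_⟩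
    rw [← ptL_of_notMem h hz, ← ptL_nsmul h, ptL_eq_zero h]
    exact hlz
  · rintro ⟨y, hn, hP⟩
    obtain ⟨z, hz⟩ := ptL_surj h (.some x y hn)
    have hzL : z ∉ L := by
      intro hzL
      rw [ptL_of_mem hzL] at hz
      exact absurd hz (by simp [WeierstrassCurve.Affine.Point.zero_def])
    refine ⟨z, hzL, ?_, ?_⟩
    · rw [← ptL_eq_zero h, ptL_nsmul h, hz]
      exact hP
    · rw [ptL_of_notMem h hzL] at hz
      exact (WeierstrassCurve.Affine.Point.some.inj hz).1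

theorem xtor_finite (h : IsLat L) {l : ℕ} (hl : 0 < l) : (xtor l L).Finite := by
  have hl0 : ((l : ℂ)⁻¹) ≠ 0 := inv_ne_zero (by exact_mod_cast hl.ne')
  have hl1 : (l : ℂ) ≠ 0 := by exact_mod_cast hl.ne'
  have hle : L ≤ (l : ℂ)⁻¹ • L := by
    intro z hz
    have h1 : z = (l : ℂ)⁻¹ * ((l : ℂ) * z) := by field_simp
    rw [h1, mem_smul_iff hl0]
    have h2 := L.smul_mem (l : ℤ) hz
    rw [zsmul_eq_mul] at h2
    exact_mod_cast h2
  obtain ⟨T, -, hT⟩ := exists_reps h (h.smul hl0) hle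
  refine (T.finite_toSet.image (wp L)).subset ?_
  rintro x ⟨z, hz, hlz, rfl⟩
  have hz' : z ∈ (l : ℂ)⁻¹ • L := by
    have h1 : z = (l : ℂ)⁻¹ * ((l : ℂ) * z) := by field_simp
    rw [h1, mem_smul_iff hl0]
    exact hlz
  rcases hT z hz' with h1 | ⟨t, ht, htL⟩
  · exact absurd h1 hz
  · refine ⟨t, ht, ?_⟩
    have h2 := h.wp_add t htL
    rw [add_sub_cancel] at h2
    exact h2.symm

theorem xtor_conj (h : IsLat L) (σ : ℂ ≃+* ℂ) (h2 : σ (g2 L) = g2 L) (h3 : σ (g3 L) = g3 L)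
    {l : ℕ} {x : ℂ} (hx : x ∈ xtor l L) : σ x ∈ xtor l L := by
  obtain ⟨y, hn, hP⟩ := (xtor_iff h l x).1 hx
  have ha : σ (-(g2 L) / 4) = -(g2 L) / 4 := by
    rw [map_div₀, map_neg, h2, map_ofNat]
  have hb : σ (-(g3 L) / 4) = -(g3 L) / 4 := by
    rw [map_div₀, map_neg, h3, map_ofNat]
  obtain ⟨f, hf⟩ := crv_aut σ ha hb
  obtain ⟨hn', hf'⟩ := hf x y hn
  have h5 : l • (WeierstrassCurve.Affine.Point.some x y hn : (crv (-(g2 L) / 4) (-(g3 L) / 4)).toAffine.Point) = 0 :=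
    hP
  have h6 : l • (WeierstrassCurve.Affine.Point.some (σ x) (σ y) hn' :
      (crv (-(g2 L) / 4) (-(g3 L) / 4)).toAffine.Point) = 0 := by
    rw [← hf', ← map_nsmul, h5, map_zero]
  rw [xtor_iff h]
  exact ⟨σ y, hn', h6⟩

end Pool.Agent.SS
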